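import Pool.Agent.TH167.SM.Pos3

set_option autoImplicit false

/-!
# A numerical criterion for the smoothness of rigid reduced curves
-/

namespace Pool.Agent.K3h62.NQ

open MvPolynomial Pool.Agent.W609 Pool.Agent.W609.CR Pool.Agent.TH167.SH Pool.Agent.TH167.TT
  Pool.Agent.TH167.DD Pool.Agent.H248R5 Pool.Agent.H248R6 Pool.Agent.W641.CR Pool.Agent.TH167.SM

/-- The numerical conditions on the components of the generator `f` of a rigid system. -/
structure Num {K : Type} [Field K] {s : ℕ} (P : Fin s → Fin 2 → K) (w : Fin s → ℕ)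
    (f : MvPolynomial (Fin 3) K) : Prop where
  chi1 : ∀ G, Irreducible G → G ∣ f → chi G.totalDegree (fun j => oq (aff (P j)) G) = 1
  dis : ∀ G1 G2, Irreducible G1 → Irreducible G2 → G1 * G2 ∣ f →
    G1.totalDegree * G2.totalDegree = ∑ j, oq (aff (P j)) G1 * oq (aff (P j)) G2
  kap : ∀ G, Irreducible G → G ∣ f →
    ∑ j ∈ Finset.univ.filter (fun i => 2 < w i), oq (aff (P j)) G < 3 * G.totalDegree

/-- No infinitely near double points over points of multiplicity larger than two. -/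
theorem rigid_nearN {K : Type} [Field K] [CharZero K] [IsAlgClosed K] {r : ℕ}
    {P : Fin (r + 4) → Fin 2 → K}
    (hP : AlgebraicIndependent ℚ (fun ij : Fin (r + 4) × Fin 2 => P ij.1 ij.2)) {d : ℕ}
    {w : Fin (r + 4) → ℕ}
    (h1 : Module.finrank K ↥(VS (fun j => aff (P j)) w d) = 1)
    {f : MvPolynomial (Fin 3) K} (hf : f ∈ VS (fun j => aff (P j)) w d) (hf0 : f ≠ 0)
    (hsq : Squarefree f) (hN : Num P w f) {i : Fin (r + 4)} (hi : 2 < w i) {v : Fin 2 → K}
    (hv : v ≠ 0) (hfn : f ∈ NI (P i) v (w i)) : False := by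
  classical
  have hfm := (mem_VS _ _ _ _).1 hf
  have hwi : oq (aff (P i)) f = w i := (oq_ord hf0 _).1 (exact_ord hP h1 hf hf0 i)
  -- the line at infinity is not a component
  have hX : ¬ (X 2 : MvPolynomial (Fin 3) K) ∣ f := by
    intro hd
    have h2 := hN.chi1 _ (MvPolynomial.X_prime (R := K) (i := (2 : Fin 3))).irreducible hd
    have h3 : ∀ j, oq (aff (P j)) (X 2 : MvPolynomial (Fin 3) K) = 0 := by
      intro j
      rw [← oq_ord (X_ne_zero _), ord_zero, eval_X]
      exact one_ne_zero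
    simp only [h3] at h2
    rw [MvPolynomial.totalDegree_X] at h2
    unfold chi at h2
    simp at h2
  obtain ⟨n, n', hn, e0, e1, e2, e3⟩ := exists_nn hfm.1 hX hv
  obtain ⟨q, hq⟩ : ∃ q : Fin 3 → K, q = ![v 1 - v 0 * n, - (v 1 - v 0 * n'), 0] := ⟨_, rfl⟩
  have q0 : q 0 ≠ 0 := by rw [hq]; exact e2
  have q1 : q 1 ≠ 0 := by rw [hq]; exact neg_ne_zero.2 e3
  have q2 : q 2 = 0 := by rw [hq]; rfl
  let L : MvPolynomial (Fin 3) K →ₐ[K] MvPolynomial (Fin 3) K :=
    (phi K).comp (Pool.Agent.W609.CR.lin (qm (P i) n n'))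
  let o : MvPolynomial (Fin 3) K → ℕ := fun g => oq q (L g) - oq (aff (P i)) g
  -- the order of the transform
  have key : ∀ g g' : MvPolynomial (Fin 3) K, g' ≠ 0 → L g = X 2 ^ oq (aff (P i)) g * g' →
      oq q (L g) = oq (aff (P i)) g + oq q g' := by
    intro g g' h2 h3
    rw [h3, oq_mul q (pow_ne_zero _ (X_ne_zero _)) h2, oq_pow q (X_ne_zero _), oq_X q2, mul_one]
  have hhom : ∀ g, g ∣ f → g.IsHomogeneous g.totalDegree := fun g hg =>
    Pool.Agent.Chud.homog_of_dvd hfm.1 hf0 hg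
  have hdec : ∀ g, g ∣ f → ∃ g', g' ≠ 0 ∧ L g = X 2 ^ oq (aff (P i)) g * g' := by
    intro g hg
    exact phi_form i hn (ne_zero_of_dvd_ne_zero hf0 hg) (hhom g hg)
  have hmul : ∀ a b, a * b ∣ f → a ≠ 0 → b ≠ 0 → o (a * b) = o a + o b := by
    intro a b hab ha hb
    obtain ⟨a', ha', ha2⟩ := hdec a (dvd_of_mul_right_dvd hab)
    obtain ⟨b', hb', hb2⟩ := hdec b (dvd_of_mul_left_dvd hab)
    have k1 := key a a' ha' ha2
    have k2 := key b b' hb' hb2
    show oq q (L (a * b)) - _ = oq q (L a) - _ + (oq q (L b) - _)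
    have hLa : L a ≠ 0 := by
      rw [ha2]
      exact mul_ne_zero (pow_ne_zero _ (X_ne_zero _)) ha'
    have hLb : L b ≠ 0 := by
      rw [hb2]
      exact mul_ne_zero (pow_ne_zero _ (X_ne_zero _)) hb'
    rw [map_mul, oq_mul q hLa hLb, oq_mul _ ha hb]
    omega
  have ho2 : 2 ≤ o f := by
    obtain ⟨f', hf', hf2⟩ := hdec f dvd_rfl
    have k1 := key f f' hf' hf2
    have h2 := phi_near (by omega : 2 ≤ w i) hfn (n := n) (n' := n') (f' := f') (by
      rw [← hwi]
      exact hf2)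
    rw [← hq, oq_van hf'] at h2
    show 2 ≤ oq q (L f) - _
    omega
  have hev : ∀ (g : MvPolynomial (Fin 3) K), g ∣ f → eval ![1, (n : K), 0] g ≠ 0 ∧
      eval ![1, (n' : K), 0] g ≠ 0 := by
    rintro g ⟨h, rfl⟩
    rw [map_mul] at e0 e1
    exact ⟨left_ne_zero_of_mul e0, left_ne_zero_of_mul e1⟩
  have hQD : ∀ G, Irreducible G → G ∣ f → ∃ G', QD P i n n' G G' G.totalDegree ∧
      ∀ k, k ≤ o G → Van q k G' := by
    intro G hG hGf
    obtain ⟨G', hG'⟩ := exists_QD hP i hn hG (hhom G hGf) (hev G hGf).1 (hev G hGf).2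
    refine ⟨G', hG', fun k hk => ?_⟩
    rw [oq_van hG'.irr.ne_zero]
    have k1 := key G G' hG'.irr.ne_zero hG'.phi
    have : k ≤ oq q (L G) - oq (aff (P i)) G := hk
    omega
  rcases an2 hmul f dvd_rfl hf0 ho2 with ⟨G, g1, g2, g3⟩ | ⟨G1, G2, g1, g2, g3, g4, g5⟩
  · obtain ⟨G', hG', hv2⟩ := hQD G g1 g2
    have hchi : (G.totalDegree + 2).choose 2 = 1 + ∑ j, (oq (aff (P j)) G + 1).choose 2 := by
      have h2 := hN.chi1 G g1 g2
      rw [chi_cast] at h2
      omega
    refine near_oneP hP hn hchi ?_ hG' q0 q1 q2 (hv2 2 g3)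
    refine lt_of_le_of_lt (Finset.sum_le_sum_of_subset (t := Finset.univ.filter fun j => 2 < w j)
      fun j hj => ?_) (hN.kap G g1 g2)
    have ha := (comp1 hP h1 hf hf0 g2).2.1
    rw [Finset.mem_insert, Finset.mem_filter] at hj
    rw [Finset.mem_filter]
    refine ⟨Finset.mem_univ _, ?_⟩
    rcases hj with rfl | ⟨-, hj⟩
    · exact hi
    · exact lt_of_lt_of_le hj (ha j)
  · have hd1 : G1 ∣ f := dvd_of_mul_right_dvd g3
    have hd2 : G2 ∣ f := dvd_of_mul_left_dvd g3
    obtain ⟨G1', hG1', hv1⟩ := hQD G1 g1 hd1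
    obtain ⟨G2', hG2', hv2⟩ := hQD G2 g2 hd2
    refine near_two hP hn g1 g2 (hhom G1 hd1) (hhom G2 hd2) (comp1 hP h1 hf hf0 hd1).2.2
      (hN.dis G1 G2 g1 g2 g3) ?_ hG1' hG2' q0 q1 q2 (hv1 1 g4) (hv2 1 g5)
    intro hd
    obtain ⟨c, rfl⟩ := hd
    exact g1.not_isUnit (hsq G1 (dvd_of_mul_right_dvd (by rw [← mul_assoc] at g3; exact g3)))

/-- No singular points outside of the assigned points. -/
theorem rigid_finN {K : Type} [Field K] [CharZero K] [IsAlgClosed K] {r : ℕ}
    {P : Fin (r + 4) → Fin 2 → K}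
    (hP : AlgebraicIndependent ℚ (fun ij : Fin (r + 4) × Fin 2 => P ij.1 ij.2)) {d : ℕ}
    {w : Fin (r + 4) → ℕ}
    (h1 : Module.finrank K ↥(VS (fun j => aff (P j)) w d) = 1)
    {f : MvPolynomial (Fin 3) K} (hf : f ∈ VS (fun j => aff (P j)) w d) (hf0 : f ≠ 0)
    (hsq : Squarefree f) (hN : Num P w f) {q : Fin 3 → K} (hq0 : q ≠ 0)
    (hq : ∀ j, ∀ c : K, q ≠ c • aff (P j)) : ¬ Van q 2 f := by
  classical
  intro hv
  have hfm := (mem_VS _ _ _ _).1 hf
  have hhom : ∀ g, g ∣ f → g.IsHomogeneous g.totalDegree := fun g hg =>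
    Pool.Agent.Chud.homog_of_dvd hfm.1 hf0 hg
  rcases an2 (o := oq q) (F := f) (fun a b _ ha hb => oq_mul q ha hb) f dvd_rfl hf0
    ((oq_van hf0 2).1 hv) with ⟨G, g1, g2, g3⟩ | ⟨G1, G2, g1, g2, g3, g4, g5⟩
  · obtain ⟨a1, a2, -⟩ := comp1 hP h1 hf hf0 g2
    rcases Nat.lt_or_ge G.totalDegree 2 with hlt | hge
    · exact deg_one a1 (by omega) g1.ne_zero ((oq_van g1.ne_zero 2).2 g3)
    have hc : ∑ j ∈ Finset.univ.filter (fun j => 2 < oq (aff (P j)) G), oq (aff (P j)) G <
        3 * G.totalDegree := by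
      refine lt_of_le_of_lt (Finset.sum_le_sum_of_subset
        (t := Finset.univ.filter fun j => 2 < w j) fun j hj => ?_) (hN.kap G g1 g2)
      rw [Finset.mem_filter] at hj ⊢
      exact ⟨hj.1, lt_of_lt_of_le hj.2 (a2 j)⟩
    have hchi' := chi_hom (ι := Fin (r + 4)) (κ := Fin 0) (e := G.totalDegree)
      (w := fun j => oq (aff (P j)) G) (u := fun _ => 0)
      (S := Finset.univ.filter fun j => 2 < oq (aff (P j)) G) (P := P) (R := fun _ => bs 0)
      (G := G) (q := q) (μ := oq q G) (by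
        intro j hj
        rw [Finset.mem_filter] at hj
        push Not at hj
        exact hj (Finset.mem_univ j)) (by simpa using hc) hP (fun k => k.elim0)
      (fun k => k.elim0) (fun k => k.elim0) (fun _ k => k.elim0) g1 a1 hge
      (fun j => (oq_ord g1.ne_zero _).2 rfl) (fun k => k.elim0) hq0 hq (fun k => k.elim0)
      ((oq_ord g1.ne_zero _).2 rfl)
    have h4 : (G.totalDegree + 2).choose 2 = 1 + ∑ j, (oq (aff (P j)) G + 1).choose 2 := by
      have h2 := hN.chi1 G g1 g2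
      rw [chi_cast] at h2
      omega
    have h5 : 1 ≤ (oq q G).choose 2 := Nat.choose_pos g3
    simp only [Finset.univ_eq_empty, Finset.sum_empty, add_zero] at hchi'
    omega
  · have hd1 : G1 ∣ f := dvd_of_mul_right_dvd g3
    have hd2 : G2 ∣ f := dvd_of_mul_left_dvd g3
    have hb := bezH (ι := Option (Fin (r + 4)))
      (v := fun x => x.elim q (fun j => aff (P j)))
      (u := fun x => x.elim 1 (fun j => oq (aff (P j)) G1))
      (w := fun x => x.elim 1 (fun j => oq (aff (P j)) G2)) (by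
        rintro (_ | j)
        · exact hq0
        · exact aff_ne _) (by
        rintro (_ | j) (_ | j') hne c
        · exact absurd rfl hne
        · exact hq j' c
        · intro hc
          have hc0 : c ≠ 0 := by
            rintro rfl
            rw [zero_smul] at hc
            exact aff_ne _ hc
          apply hq j c⁻¹
          change aff (P j) = c • q at hc
          rw [hc, smul_smul, inv_mul_cancel₀ hc0, one_smul]
        · intro h
          have h3 : (1 : K) = c * 1 := congrFun h 2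
          rw [mul_one] at h3
          rw [← h3] at h
          change aff (P j) = (1 : K) • aff (P j') at h
          rw [one_smul] at h
          apply hne
          have h4 : P j = P j' := by
            funext b
            fin_cases b
            · exact congrFun h 0
            · exact congrFun h 1
          rw [Pool.Agent.TH167.SH.inj_of_alg hP h4]) g1 (hhom G1 hd1) (by
        rintro (_ | j)
        · exact (oq_van g1.ne_zero 1).2 g4
        · exact (oq_van g1.ne_zero _).2 le_rfl) g2.ne_zero (hhom G2 hd2) (by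
        rintro (_ | j)
        · exact (oq_van g2.ne_zero 1).2 g5
        · exact (oq_van g2.ne_zero _).2 le_rfl) (by
        intro hd
        obtain ⟨c, rfl⟩ := hd
        exact g1.not_isUnit (hsq G1 (dvd_of_mul_right_dvd (by rw [← mul_assoc] at g3; exact g3))))
    rw [Fintype.sum_option] at hb
    simp only [Option.elim_none, Option.elim_some] at hb
    have h3 := hN.dis G1 G2 g1 g2 g3
    omega

/-- A rigid reduced curve is smooth on the blow-up. -/
theorem rigid_smoothN {K : Type} [Field K] [CharZero K] [IsAlgClosed K] {r : ℕ}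
    {P : Fin (r + 4) → Fin 2 → K}
    (hP : AlgebraicIndependent ℚ (fun ij : Fin (r + 4) × Fin 2 => P ij.1 ij.2)) {d : ℕ}
    {w : Fin (r + 4) → ℕ}
    (h1 : Module.finrank K ↥(VS (fun j => aff (P j)) w d) = 1)
    {f : MvPolynomial (Fin 3) K} (hf : f ∈ VS (fun j => aff (P j)) w d) (hf0 : f ≠ 0)
    (hsq : Squarefree f) (hN : Num P w f) : SmoothOn P w f := by
  classical
  have hfm := (mem_VS _ _ _ _).1 hf
  refine ⟨fun Q hQ0 hQ => ?_, fun i v y hvy => ?_⟩
  · by_contra hcon
    push Not at hcon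
    exact rigid_finN hP h1 hf hf0 hsq hN hQ0 hQ (Pool.Agent.TH167.TT.van_two hcon.1 hcon.2)
  · obtain ⟨H, hH⟩ := chart_div hfm.1 (hfm.2 i) v y
    refine ⟨H, hH, ?_⟩
    by_contra hcon
    push Not at hcon
    obtain ⟨h2, h3⟩ := two_coef hcon.1 hcon.2
    have hv : v ≠ 0 := by
      rintro rfl
      simp at hvy
    rcases Nat.lt_or_ge 2 (w i) with hw2 | hw2
    · exact rigid_nearN hP h1 hf hf0 hsq hN hw2 hv (chart_mem hfm.1 hw2.le hvy hH h2 h3)
    · rcases Nat.lt_or_ge 1 (w i) with hw1 | hw1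
      · have hwi : w i = 2 := by omega
        refine rigid_dbl hP h1 hf hf0 hsq hwi hv ?_
        have := chart_mem hfm.1 hw1 hvy hH h2 h3
        rwa [hwi] at this
      · exact chart_low hfm.1 hw1 hvy (exact_ord hP h1 hf hf0 i) hH h2 h3

/-- Singular points of a rigid reduced curve lie at the points of multiplicity at least two. -/
theorem rigid_finN' {K : Type} [Field K] [CharZero K] [IsAlgClosed K] {r : ℕ}
    {P : Fin (r + 4) → Fin 2 → K}
    (hP : AlgebraicIndependent ℚ (fun ij : Fin (r + 4) × Fin 2 => P ij.1 ij.2)) {d : ℕ}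
    {w : Fin (r + 4) → ℕ}
    (h1 : Module.finrank K ↥(VS (fun j => aff (P j)) w d) = 1)
    {f : MvPolynomial (Fin 3) K} (hf : f ∈ VS (fun j => aff (P j)) w d) (hf0 : f ≠ 0)
    (hsq : Squarefree f) (hN : Num P w f) {q : Fin 3 → K} (hq0 : q ≠ 0)
    (hq : ∀ j, 1 < w j → ∀ c : K, q ≠ c • aff (P j)) : ¬ Van q 2 f := by
  classical
  intro hv
  by_cases hex : ∃ j, ∃ c : K, q = c • aff (P j)
  · obtain ⟨j, c, hc⟩ := hex
    have hc0 : c ≠ 0 := by
      rintro rfl
      rw [zero_smul] at hc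
      exact hq0 hc
    have hwj : w j ≤ 1 := by
      by_contra hlt
      exact hq j (by omega) c hc
    rw [hc, (t_lin K).2 f d ((mem_VS _ _ _ _).1 hf).1 c hc0] at hv
    exact (exact_ord hP h1 hf hf0 j).2 (van_mono (by omega) hv)
  · push Not at hex
    exact rigid_finN hP h1 hf hf0 hsq hN hq0 hex hv

/-- If the numerical conditions hold for the generic member, then the general member is smooth. -/
theorem general_smoothN {K : Type} [Field K] [CharZero K] [IsAlgClosed K] {s : ℕ}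
    {P : Fin s → Fin 2 → K}
    (hP : AlgebraicIndependent ℚ (fun ij : Fin s × Fin 2 => P ij.1 ij.2)) {w : Fin s → ℕ}
    {d : ℕ}
    (hNum : ∀ (n : ℕ) (L : Type) [Field L] [CharZero L] [IsAlgClosed L] (R : Fin (s + (n + 4)) →
      Fin 2 → L), AlgebraicIndependent ℚ (fun ij : Fin (s + (n + 4)) × Fin 2 => R ij.1 ij.2) →
      Module.finrank L ↥(VS (fun j => aff (R j))
        (wwt w (fun k : Fin (n + 4) => if k.1 < n then 1 else 0)) d) = 1 →
      ∀ G ∈ VS (fun j => aff (R j)) (wwt w (fun k : Fin (n + 4) => if k.1 < n then 1 else 0)) d,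
        Squarefree G → chi d (wwt w (fun k : Fin (n + 4) => if k.1 < n then 1 else 0)) = 1 ∧
          Num R (wwt w (fun k : Fin (n + 4) => if k.1 < n then 1 else 0)) G)
    {f : MvPolynomial (Fin 3) K} (hf : f ∈ VS (fun j => aff (P j)) w d)
    (hsq : Squarefree f) :
    (Module.finrank K ↥(VS (fun j => aff (P j)) w d) : ℤ) = chi d w ∧
      GeneralMember (VS (fun j => aff (P j)) w d) (SmoothOn P w) := by
  classical
  have hfin := vs_fin (fun j => aff (P j)) w d
  have hpos := pos_of_mem hf hsq.ne_zero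
  obtain ⟨n, hn⟩ : ∃ n, Module.finrank K ↥(VS (fun j => aff (P j)) w d) = n + 1 :=
    ⟨Module.finrank K ↥(VS (fun j => aff (P j)) w d) - 1, by omega⟩
  let b : Module.Basis (Fin (n + 1)) K ↥(VS (fun j => aff (P j)) w d) :=
    Module.finBasisOfFinrankEq K _ hn
  obtain ⟨L, i1, i2, i3, i4, Q, t, D, hPQ, hD, hK, hNn, h1, hG⟩ := gen_member hP b
  obtain ⟨G, hGd⟩ : ∃ G, G = ∑ j, C (t j) *
    map (algebraMap K L) (b j : MvPolynomial (Fin 3) K) := ⟨_, rfl⟩
  rw [← hGd] at hG
  have hfc : f = ∑ j, C (b.repr ⟨f, hf⟩ j) * (b j : MvPolynomial (Fin 3) K) := by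
    have h2 := congrArg Subtype.val (b.sum_repr ⟨f, hf⟩)
    simp only [Submodule.coe_sum, Submodule.coe_smul] at h2
    conv_lhs => rw [← h2]
    exact Finset.sum_congr rfl fun j _ => by rw [smul_eq_C_mul]
  have hGsq : Squarefree G := by
    rw [hGd]
    refine sq_gen (d := d) hD hK (fun j => ((mem_VS _ _ _ _).1 (b j).2).1)
      (c := fun j => b.repr ⟨f, hf⟩ j) ?_
    rw [← hfc]
    exact hsq
  have hG0 : G ≠ 0 := hGsq.ne_zero
  obtain ⟨hchi, hNumG⟩ := hNum n L (PPt P Q) hPQ h1 G hG hGsq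
  have hns : (Module.finrank K ↥(VS (fun j => aff (P j)) w d) : ℤ) = chi d w := by
    have h2 := wwt_choose (n := n) w
    rw [chi_cast] at hchi ⊢
    rw [h2] at hchi
    rw [hn]
    push_cast at hchi ⊢
    linarith
  refine ⟨hns, ?_⟩
  have hsm := rigid_smoothN (r := s + n) hPQ h1 hG hG0 hGsq hNumG
  have k1 : ∀ q : Fin 3 → L, q ≠ 0 →
      (∀ i, ∀ c : L, q ≠ c • aff (fun a => algebraMap K L (P i a))) →
      ¬ (eval q (∑ j, C (t j) * map (algebraMap K L) (b j : MvPolynomial (Fin 3) K)) = 0 ∧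
        ∀ a, eval q (pderiv a (∑ j, C (t j) *
          map (algebraMap K L) (b j : MvPolynomial (Fin 3) K))) = 0) := by
    rintro q hq0 hq ⟨h2, h3⟩
    rw [← hGd] at h2 h3
    have h5 : ∀ j : Fin (s + (n + 4)),
        1 < wwt w (fun k : Fin (n + 4) => if k.1 < n then 1 else 0) j →
        ∀ c : L, q ≠ c • aff (PPt P Q j) := by
      intro j hj c
      obtain ⟨y, rfl⟩ := (finSumFinEquiv (m := s) (n := n + 4)).surjective j
      rcases y with i | k
      · have := hq i c
        rw [← PPt_inl P Q i] at this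
        exact this
      · have h4 : wwt w (fun k : Fin (n + 4) => if k.1 < n then 1 else 0)
            (finSumFinEquiv (Sum.inr k)) ≤ 1 := by
          rw [wwt_inr]
          split_ifs <;> omega
        exact absurd hj (not_lt.2 h4)
    exact rigid_finN' (r := s + n) hPQ h1 hG hG0 hGsq hNumG hq0 h5
      (Pool.Agent.TH167.TT.van_two h2 h3)
  have k2 : ∀ i (v y : Fin 2 → L), v 0 * y 1 - v 1 * y 0 ≠ 0 →
      ¬ ∀ k, coeff (c3e (w i) k) (chart (fun a => algebraMap K L (P i a)) v y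
        (∑ j, C (t j) * map (algebraMap K L) (b j : MvPolynomial (Fin 3) K))) = 0 := by
    intro i v y hvy hcon
    rw [← hGd] at hcon
    obtain ⟨H, hH, hs⟩ := hsm.2 ((finSumFinEquiv (m := s) (n := n + 4)) (Sum.inl i)) v y hvy
    have e1 : PPt P Q (finSumFinEquiv (Sum.inl i)) = fun a => algebraMap K L (P i a) :=
      PPt_inl P Q i
    have e2 : wwt w (fun k : Fin (n + 4) => if k.1 < n then 1 else 0)
        (finSumFinEquiv (Sum.inl i)) = w i := wwt_inl _ _ _
    rw [e1, e2] at hH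
    exact (smooth_coef hH).1 hs hcon
  have ht := jac_ind hD hK
  refine general_of_basis b ?_
  obtain ⟨Φ1, hΦ1, hΦ1'⟩ := elim_fin (P := P) (fun j => (b j : MvPolynomial (Fin 3) K)) ht k1
  have h3 := fun i => elim_chart (p := P i) (w i) (fun j => (b j : MvPolynomial (Fin 3) K)) ht
    (k2 i)
  choose Φ2 hΦ2 hΦ2' using h3
  refine ⟨Φ1 * ∏ i, Φ2 i, mul_ne_zero hΦ1 (Finset.prod_ne_zero_iff.2 fun i _ => hΦ2 i),
    fun t0 ht0 => ?_⟩
  rw [map_mul] at ht0
  have k3 := left_ne_zero_of_mul ht0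
  have k4 := right_ne_zero_of_mul ht0
  rw [map_prod, Finset.prod_ne_zero_iff] at k4
  have e : ∑ j, t0 j • (b j : MvPolynomial (Fin 3) K) =
      ∑ j, C (t0 j) * (b j : MvPolynomial (Fin 3) K) :=
    Finset.sum_congr rfl fun j _ => by rw [smul_eq_C_mul]
  have hmem : ∑ j, t0 j • (b j : MvPolynomial (Fin 3) K) ∈ VS (fun j => aff (P j)) w d :=
    Submodule.sum_mem _ fun j _ => Submodule.smul_mem _ _ (b j).2
  have hm := (mem_VS _ _ _ _).1 hmem
  refine ⟨fun Q hQ0 hQ => ?_, fun i v y hvy => ?_⟩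
  · rw [e]
    exact hΦ1' t0 k3 Q hQ0 hQ
  · obtain ⟨H, hH⟩ := chart_div hm.1 (hm.2 i) v y
    refine ⟨H, hH, ?_⟩
    rw [smooth_coef hH, e]
    exact hΦ2' i t0 (k4 i (Finset.mem_univ i)) v y hvy

end Pool.Agent.K3h62.NQ
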