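import Pool.Agent.K3h62.NQ.Num

set_option autoImplicit false

/-!
# Nine arbitrary multiplicities: systems off the quadric
-/

namespace Pool.Agent.K3h62.NQ

open MvPolynomial Pool.Agent.W609 Pool.Agent.W609.CR Pool.Agent.TH167 Pool.Agent.TH167.SH
  Pool.Agent.TH167.TT Pool.Agent.TH167.DD Pool.Agent.TH167.SM Pool.Agent.H248R5

/-- The sum of the multiplicities larger than two outside of `T`. -/
def rs {s : ℕ} (T : Finset (Fin s)) (w : Fin s → ℕ) : ℕ := ∑ j ∈ Tᶜ, if w j ≤ 2 then 0 else w j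

theorem dat_of {L : Type} [Field L] [CharZero L] {s n : ℕ} {R : Fin (s + (n + 4)) → Fin 2 → L}
    (hR : AlgebraicIndependent ℚ (fun ij : Fin (s + (n + 4)) × Fin 2 => R ij.1 ij.2))
    {T : Finset (Fin s)} (hT : T.card = 9) {w : Fin s → ℕ} {d q : ℕ} (hr : rs T w ≤ q)
    (hd : 9 * (q + 1) ≤ d) (hquad : ∑ j ∈ T, w j ^ 2 ≤ (d - 9 * (q + 1)) ^ 2)
    (h1 : Module.finrank L ↥(VS (fun j => aff (R j))
        (wwt w (fun k : Fin (n + 4) => if k.1 < n then 1 else 0)) d) = 1)
    {G : MvPolynomial (Fin 3) L}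
    (hG : G ∈ VS (fun j => aff (R j)) (wwt w (fun k : Fin (n + 4) => if k.1 < n then 1 else 0)) d)
    (hsq : Squarefree G) :
    ∃ T' Z : Finset (Fin (s + n + 4)), Dat (r := s + n) R T' Z
      q d (wwt (s := s) (m := n + 4) w (fun k : Fin (n + 4) => if k.1 < n then 1 else 0)) G := by
  classical
  obtain ⟨ww, hww⟩ : ∃ ww, ww = wwt w (fun k : Fin (n + 4) => if k.1 < n then 1 else 0) :=
    ⟨_, rfl⟩
  obtain ⟨T', hT'⟩ : ∃ T' : Finset (Fin (s + (n + 4))),
    T' = T.map ⟨fun j => finSumFinEquiv (Sum.inl j), fun a b h => by simpa using h⟩ := ⟨_, rfl⟩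
  obtain ⟨Z, hZ⟩ : ∃ Z : Finset (Fin (s + (n + 4))),
    Z = Finset.univ.filter fun j => j ∉ T' ∧ ww j ≤ 2 := ⟨_, rfl⟩
  have hTl : ∀ i : Fin s, finSumFinEquiv (Sum.inl i) ∈ T' ↔ i ∈ T := by
    intro i
    rw [hT', Finset.mem_map]
    constructor
    · rintro ⟨j, hj, hij⟩
      have h2 : (finSumFinEquiv (Sum.inl j) : Fin (s + (n + 4))) = finSumFinEquiv (Sum.inl i) := hij
      have h3 := Sum.inl.inj (finSumFinEquiv.injective h2)
      rwa [← h3]
    · intro hi
      exact ⟨i, hi, rfl⟩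
  have hTr : ∀ k : Fin (n + 4), (finSumFinEquiv (Sum.inr k) : Fin (s + (n + 4))) ∉ T' := by
    intro k hk
    rw [hT', Finset.mem_map] at hk
    obtain ⟨j, -, hij⟩ := hk
    have h2 : (finSumFinEquiv (Sum.inl j) : Fin (s + (n + 4))) = finSumFinEquiv (Sum.inr k) := hij
    exact absurd (finSumFinEquiv.injective h2) (by simp)
  have hZm : ∀ j, j ∈ Z ↔ j ∉ T' ∧ ww j ≤ 2 := fun j => by
    rw [hZ, Finset.mem_filter]
    simp
  rw [← hww] at h1 hG ⊢
  refine ⟨T', Z, hR, ?_, ?_, ?_, ?_, hd, ?_, h1, hG, hsq⟩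
  · rw [hT', Finset.card_map]
    exact hT
  · intro j hj hjZ
    exact ((hZm j).1 hjZ).1 hj
  · intro j hj
    exact ((hZm j).1 hj).2
  · have e0 : ∑ j ∈ T'ᶜ, zz Z ww j = ∑ j : Fin (s + (n + 4)), (if j ∈ T' then 0 else zz Z ww j) := by
      rw [← Finset.sum_add_sum_compl T' (fun j => if j ∈ T' then 0 else zz Z ww j)]
      have a1 : ∑ j ∈ T', (if j ∈ T' then 0 else zz Z ww j) = 0 :=
        Finset.sum_eq_zero fun j hj => if_pos hj
      rw [a1, zero_add]
      exact Finset.sum_congr rfl fun j hj => (if_neg (Finset.mem_compl.1 hj)).symm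
    have e0' : rs T w = ∑ j, (if j ∈ T then 0 else if w j ≤ 2 then 0 else w j) := by
      unfold rs
      rw [← Finset.sum_add_sum_compl T (fun j => if j ∈ T then 0 else if w j ≤ 2 then 0 else w j)]
      have a1 : ∑ j ∈ T, (if j ∈ T then 0 else if w j ≤ 2 then 0 else w j) = 0 :=
        Finset.sum_eq_zero fun j hj => if_pos hj
      rw [a1, zero_add]
      exact Finset.sum_congr rfl fun j hj => (if_neg (Finset.mem_compl.1 hj)).symm
    refine le_trans (le_of_eq ?_) hr
    refine Eq.trans e0 ?_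
    rw [e0', ← Equiv.sum_comp finSumFinEquiv, Fintype.sum_sum_type]
    have e1 : ∀ i : Fin s, (if finSumFinEquiv (Sum.inl i) ∈ T' then 0 else
        zz Z ww (finSumFinEquiv (Sum.inl i))) =
          if i ∈ T then 0 else if w i ≤ 2 then 0 else w i := by
      intro i
      by_cases hi : i ∈ T
      · rw [if_pos hi, if_pos ((hTl i).2 hi)]
      · rw [if_neg hi, if_neg fun h => hi ((hTl i).1 h)]
        have a0 : ww (finSumFinEquiv (Sum.inl i)) = w i := by rw [hww, wwt_inl]
        unfold zz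
        by_cases hw : w i ≤ 2
        · rw [if_pos hw, if_pos ((hZm _).2 ⟨fun h => hi ((hTl i).1 h), by rw [a0]; exact hw⟩)]
        · rw [if_neg hw, if_neg, a0]
          intro h
          apply hw
          rw [← a0]
          exact ((hZm _).1 h).2
    have e2 : ∀ k : Fin (n + 4), (if finSumFinEquiv (Sum.inr k) ∈ T' then 0 else
        zz Z ww (finSumFinEquiv (Sum.inr k))) = 0 := by
      intro k
      rw [if_neg (hTr k)]
      unfold zz
      rw [if_pos]
      refine (hZm _).2 ⟨hTr k, ?_⟩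
      rw [hww, wwt_inr]
      split_ifs <;> omega
    rw [Finset.sum_congr rfl fun i _ => e1 i, Finset.sum_congr rfl fun k _ => e2 k]
    simp
  · rw [hT', Finset.sum_map]
    refine le_trans (le_of_eq ?_) hquad
    refine Finset.sum_congr rfl fun i _ => ?_
    show ww (finSumFinEquiv (Sum.inl i)) ^ 2 = w i ^ 2
    rw [hww, wwt_inl]

/-- Nonspecial and smooth off the quadric. -/
theorem main {K : Type} [Field K] [CharZero K] [IsAlgClosed K] {s : ℕ} {P : Fin s → Fin 2 → K}
    (hP : AlgebraicIndependent ℚ (fun ij : Fin s × Fin 2 => P ij.1 ij.2))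
    {T : Finset (Fin s)} (hT : T.card = 9) {w : Fin s → ℕ} {d q : ℕ} (hr : rs T w ≤ q)
    (hd : 9 * (q + 1) ≤ d) (hquad : ∑ j ∈ T, w j ^ 2 ≤ (d - 9 * (q + 1)) ^ 2)
    {f : MvPolynomial (Fin 3) K} (hf : f ∈ VS (fun j => aff (P j)) w d) (hsq : Squarefree f) :
    (Module.finrank K ↥(VS (fun j => aff (P j)) w d) : ℤ) = chi d w ∧
      GeneralMember (VS (fun j => aff (P j)) w d) (SmoothOn P w) := by
  refine general_smoothN hP ?_ hf hsq
  intro n L _ _ _ R hR h1 G hG hGsq
  obtain ⟨T', Z, D⟩ := dat_of hR hT hr hd hquad h1 hG hGsq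
  exact ⟨D.chi_w, D.num⟩

/-- Pairwise disjoint `(-1)`-curves with support in nine points: there are at most nine. -/
theorem card_le {s k : ℕ} {T : Finset (Fin s)} (hT : T.card = 9) {e : Fin k → ℕ}
    {u : Fin k → Fin s → ℕ} (hu : ∀ a j, j ∉ T → u a j = 0)
    (hself : ∀ a, ip (e a) (u a) (e a) (u a) = -1)
    (horth : ∀ a b, a ≠ b → ip (e a) (u a) (e b) (u b) = 0) : k ≤ 9 := by
  classical
  have hli : LinearIndependent ℚ (fun a : Fin k => fun j : T => (u a j : ℚ)) := by
    rw [Fintype.linearIndependent_iff]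
    intro c hc
    have h1 : ∀ a b : Fin k, ∑ j : T, (u a j : ℚ) * u b j = (e a : ℚ) * e b +
        if a = b then 1 else 0 := by
      intro a b
      have h2 : ip (e a) (u a) (e b) (u b) = - (if a = b then 1 else 0) := by
        split_ifs with hab
        · subst hab
          rw [hself]
        · rw [horth a b hab]
          rfl
      unfold ip at h2
      have h3 : ∑ j, (u a j : ℤ) * u b j = ∑ j ∈ T, (u a j : ℤ) * u b j := by
        refine (Finset.sum_subset (Finset.subset_univ T) fun j _ hj => ?_).symm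
        rw [hu a j hj]
        simp
      rw [h3] at h2
      have h4 : ∑ j : T, (u a j : ℚ) * u b j = ∑ j ∈ T, (u a j : ℚ) * u b j :=
        Finset.sum_coe_sort T fun j => (u a j : ℚ) * u b j
      rw [h4]
      have h5 : ((∑ j ∈ T, (u a j : ℤ) * u b j : ℤ) : ℚ) =
          (((e a : ℤ) * e b + if a = b then 1 else 0 : ℤ) : ℚ) := by
        congr 1
        linarith
      push_cast at h5
      exact h5
    have h2 : ∑ j : T, (∑ a, c a * (u a j : ℚ)) ^ 2 = 0 := by
      refine Finset.sum_eq_zero fun j _ => ?_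
      have h3 := congrFun hc j
      simp only [Finset.sum_apply, Pi.smul_apply, smul_eq_mul, Pi.zero_apply] at h3
      rw [h3]
      ring
    have h3 : ∑ j : T, (∑ a, c a * (u a j : ℚ)) ^ 2 = (∑ a, c a * (e a : ℚ)) ^ 2 +
        ∑ a, c a ^ 2 := by
      have e1 : ∀ j : T, (∑ a, c a * (u a j : ℚ)) ^ 2 =
          ∑ a, ∑ b, c a * c b * ((u a j : ℚ) * u b j) := by
        intro j
        rw [pow_two, Finset.sum_mul_sum]
        exact Finset.sum_congr rfl fun a _ => Finset.sum_congr rfl fun b _ => by ring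
      rw [Finset.sum_congr rfl fun j _ => e1 j, Finset.sum_comm]
      have e2 : ∀ a, ∑ j : T, ∑ b, c a * c b * ((u a j : ℚ) * u b j) =
          ∑ b, c a * c b * ((e a : ℚ) * e b + if a = b then 1 else 0) := by
        intro a
        rw [Finset.sum_comm]
        refine Finset.sum_congr rfl fun b _ => ?_
        rw [← Finset.mul_sum, h1]
      rw [Finset.sum_congr rfl fun a _ => e2 a]
      have e3 : ∀ a, ∑ b, c a * c b * ((e a : ℚ) * e b + if a = b then 1 else 0) =
          (c a * e a) * (∑ b, c b * (e b : ℚ)) + c a ^ 2 := by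
        intro a
        have e4 : ∀ b, c a * c b * ((e a : ℚ) * e b + if a = b then 1 else 0) =
            (c a * e a) * (c b * (e b : ℚ)) + if a = b then c a * c b else 0 := by
          intro b
          split_ifs <;> ring
        rw [Finset.sum_congr rfl fun b _ => e4 b, Finset.sum_add_distrib, ← Finset.mul_sum,
          Finset.sum_ite_eq Finset.univ a fun b => c a * c b, if_pos (Finset.mem_univ a)]
        ring
      rw [Finset.sum_congr rfl fun a _ => e3 a, Finset.sum_add_distrib, ← Finset.sum_mul]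
      ring
    rw [h3] at h2
    intro a
    have h4 : c a ^ 2 ≤ ∑ a, c a ^ 2 :=
      Finset.single_le_sum (f := fun a => c a ^ 2) (fun _ _ => sq_nonneg _) (Finset.mem_univ a)
    have h5 : c a ^ 2 = 0 := by
      have h6 := sq_nonneg (∑ a, c a * (e a : ℚ))
      have h7 := sq_nonneg (c a)
      linarith
    exact pow_eq_zero_iff two_ne_zero |>.1 h5
  have h1 := hli.fintype_card_le_finrank
  rw [Fintype.card_fin, Module.finrank_fintype_fun_eq_card, Fintype.card_coe, hT] at h1
  exact h1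

/-- Inside the quadric there are no reduced members. -/
theorem no_sq {K : Type} [Field K] [CharZero K] {s : ℕ} {P : Fin s → Fin 2 → K}
    (hP : AlgebraicIndependent ℚ (fun ij : Fin s × Fin 2 => P ij.1 ij.2))
    {T : Finset (Fin s)} (hT : T.card = 9) {w : Fin s → ℕ} {d : ℕ}
    (hquad : d ^ 2 + 9 < ∑ j ∈ T, w j ^ 2)
    {f : MvPolynomial (Fin 3) K} (hf : f ∈ VS (fun j => aff (P j)) w d) (hsq : Squarefree f) :
    False := by
  classical
  obtain ⟨r, rfl⟩ : ∃ r, s = r + 4 := by
    have h1 := Finset.card_le_univ T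
    rw [hT, Fintype.card_fin] at h1
    exact ⟨s - 4, by omega⟩
  obtain ⟨uT, huT⟩ : ∃ uT : Fin (r + 4) → ℕ, uT = fun j => if j ∈ T then w j else 0 :=
    ⟨_, rfl⟩
  have hmem : f ∈ VS (fun j => aff (P j)) uT d := by
    refine vs_le (fun j => ?_) hf
    rw [huT]
    show (if j ∈ T then w j else 0) ≤ _
    split_ifs <;> omega
  obtain ⟨d', w', k, C, e, u, N, h1, h2, h3, h4, -⟩ := zar9 hP (S := T) (w := uT)
    (d := d) hT.le (fun j hj => by rw [huT]; simp [hj]) (pos_of_mem hmem hsq.ne_zero)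
  have h5 := h1.dvd (by exact_mod_cast h4.symm) hmem
  have hN : ∀ a, N a = 1 := by
    intro a
    by_contra hne
    have h6 : 2 ≤ N a := by
      have := h1.pos a
      omega
    have h7 : C a ^ 2 ∣ f := by
      refine dvd_trans ?_ h5
      unfold Pr
      exact (pow_dvd_pow (C a) h6).trans (Finset.dvd_prod_of_mem _ (Finset.mem_univ a))
    rw [pow_two] at h7
    exact (h1.exc a).irr.not_isUnit (hsq (C a) h7)
  have h6 := h1.self_eq
  have h7 : ∑ a, (N a : ℤ) ^ 2 = k := by
    rw [Finset.sum_congr rfl fun a _ => by rw [hN a]]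
    simp
  rw [h7] at h6
  have hk : k ≤ 9 := by
    refine card_le hT (e := e) (u := u) (fun a j hj => ?_) (fun a => self_iff.1 (h1.exc a).self)
      h1.orth
    have h8 := h1.mul j
    have h9 : uT j = 0 := by rw [huT]; simp [hj]
    rw [h9] at h8
    have h10 : N a * u a j ≤ ∑ a, N a * u a j :=
      Finset.single_le_sum (f := fun a => N a * u a j) (fun _ _ => Nat.zero_le _)
        (Finset.mem_univ a)
    rw [hN a, one_mul] at h10
    omega
  unfold ip at h6 h3
  rw [sum_split T (fun j => (uT j : ℤ) * uT j)] at h6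
  have e1 : ∑ j ∈ Tᶜ, (uT j : ℤ) * uT j = 0 := Finset.sum_eq_zero fun j hj => by
    rw [huT]
    simp [Finset.mem_compl.1 hj]
  have e2 : ∑ j ∈ T, (uT j : ℤ) * uT j = ((∑ j ∈ T, w j ^ 2 : ℕ) : ℤ) := by
    push_cast
    refine Finset.sum_congr rfl fun j hj => ?_
    rw [huT]
    simp only [if_pos hj]
    ring
  rw [e1, e2, add_zero] at h6
  have h8 : ((d ^ 2 + 9 : ℕ) : ℤ) < ((∑ j ∈ T, w j ^ 2 : ℕ) : ℤ) := by exact_mod_cast hquad
  push_cast at h8 h6
  have h9 : (k : ℤ) ≤ 9 := by exact_mod_cast hk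
  nlinarith

end Pool.Agent.K3h62.NQ
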