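import Pool.Agent.K3h62.NQ.Eng
import Pool.Agent.R355.NineO
import Pool.Agent.TH167.RD.Rigid

set_option autoImplicit false

/-!
# Nine arbitrary multiplicities: the components of the generic member
-/

namespace Pool.Agent.K3h62.NQ

open MvPolynomial Pool.Agent.W609 Pool.Agent.W609.CR Pool.Agent.TH167 Pool.Agent.TH167.SH
  Pool.Agent.TH167.TT Pool.Agent.TH167.DD Pool.Agent.TH167.SM

/-- Systems with a squarefree member and large self-intersection are nonspecial. -/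
theorem sq_nonsp' {K : Type} [Field K] [CharZero K] {r : ℕ} {P : Fin (r + 4) → Fin 2 → K}
    (hP : AlgebraicIndependent ℚ (fun ij : Fin (r + 4) × Fin 2 => P ij.1 ij.2))
    {T : Finset (Fin (r + 4))} (hT : T.card = 9) {d : ℕ} {w : Fin (r + 4) → ℕ}
    (hq : 63 * ((∑ j ∈ Tᶜ, w j : ℕ) : ℤ) ^ 2 ≤ ip d w d w)
    {f : MvPolynomial (Fin 3) K} (hf : f ∈ VS (fun j => aff (P j)) w d)
    (hsq : Squarefree f) :
    (Module.finrank K ↥(VS (fun j => aff (P j)) w d) : ℤ) = chi d w := by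
  by_contra hcon
  have h1 := chi_le_dim P d w
  have h2 : SH.Special P d w := by
    rw [special_iff]
    exact ⟨pos_of_mem hf hsq.ne_zero, lt_of_le_of_ne h1 (Ne.symm hcon)⟩
  obtain ⟨F, hF, hF'⟩ := Pool.Agent.R355.Nine.hh_sq hT d w hq
  obtain ⟨d', w', k, C, e, u, N, h3, -, a, ha⟩ := hF' K P (evP_ne hP hF) h2
  have h4 := exc_pow_dvd (SH.inj_of_alg hP) (h3.exc a) 2 d w (by rw [h3.neg a]; omega) f hf
  rw [pow_two] at h4
  exact (h3.exc a).irr.not_isUnit (hsq (C a) h4)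

/-- The class without the points of `Z`. -/
def zz {s : ℕ} (Z : Finset (Fin s)) (u : Fin s → ℕ) : Fin s → ℕ := fun j => if j ∈ Z then 0 else u j

theorem zz_le {s : ℕ} (Z : Finset (Fin s)) (u : Fin s → ℕ) (j : Fin s) : zz Z u j ≤ u j := by
  unfold zz
  split_ifs <;> omega

theorem zz_add {s : ℕ} (Z : Finset (Fin s)) (u v : Fin s → ℕ) :
    zz Z (fun j => u j + v j) = fun j => zz Z u j + zz Z v j := by
  funext j
  unfold zz
  split_ifs <;> rfl

theorem chi_zz {s : ℕ} (Z : Finset (Fin s)) (a : ℕ) (u : Fin s → ℕ) :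
    chi a (zz Z u) = chi a u + ((∑ j ∈ Z, (u j + 1).choose 2 : ℕ) : ℤ) := by
  classical
  have h5 : ∑ j, (u j + 1).choose 2 = ∑ j, (zz Z u j + 1).choose 2 +
      ∑ j ∈ Z, (u j + 1).choose 2 := by
    rw [← Finset.sum_add_sum_compl Z (fun j => (u j + 1).choose 2),
      ← Finset.sum_add_sum_compl Z (fun j => (zz Z u j + 1).choose 2)]
    have e3 : ∑ j ∈ Z, (zz Z u j + 1).choose 2 = 0 := Finset.sum_eq_zero fun j hj => by
      unfold zz
      rw [if_pos hj]
      rfl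
    have e4 : ∑ j ∈ Zᶜ, (u j + 1).choose 2 = ∑ j ∈ Zᶜ, (zz Z u j + 1).choose 2 := by
      refine Finset.sum_congr rfl fun j hj => ?_
      unfold zz
      rw [if_neg (Finset.mem_compl.1 hj)]
    rw [e3, e4]
    ring
  rw [chi_cast, chi_cast, h5]
  push_cast
  ring

/-- The Euler characteristic of a rigid reduced class of large self-intersection. -/
theorem chi_rig {K : Type} [Field K] [CharZero K] {r : ℕ} {P : Fin (r + 4) → Fin 2 → K}
    (hP : AlgebraicIndependent ℚ (fun ij : Fin (r + 4) × Fin 2 => P ij.1 ij.2))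
    {T Z : Finset (Fin (r + 4))} (hT : T.card = 9) {a : ℕ} {u : Fin (r + 4) → ℕ}
    (hZ : ∀ j ∈ Z, u j ≤ 2)
    (hq : 63 * ((∑ j ∈ Tᶜ, zz Z u j : ℕ) : ℤ) ^ 2 ≤ ip a (zz Z u) a (zz Z u))
    (h1 : Module.finrank K ↥(VS (fun j => aff (P j)) u a) = 1)
    {g : MvPolynomial (Fin 3) K} (hg : g ∈ VS (fun j => aff (P j)) u a) (hsq : Squarefree g) :
    chi a u = 1 := by
  classical
  have h2 := sq_nonsp' hP hT hq (vs_le (zz_le Z u) hg) hsq
  have h3 := tlem hP h1 hg hsq.ne_zero hsq Zᶜ fun j hj => hZ j (by simpa using hj)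
  have e1 : (fun j => if j ∈ Zᶜ then u j else 0) = zz Z u := by
    funext j
    unfold zz
    by_cases hj : j ∈ Z
    · rw [if_neg (by simpa using hj), if_pos hj]
    · rw [if_pos (by simpa using hj), if_neg hj]
  have e2 : ∑ j, (if j ∈ Zᶜ then 0 else (u j + 1).choose 2) = ∑ j ∈ Z, (u j + 1).choose 2 := by
    rw [← Finset.sum_add_sum_compl Z]
    have a1 : ∑ j ∈ Zᶜ, (if j ∈ Zᶜ then 0 else (u j + 1).choose 2) = 0 :=
      Finset.sum_eq_zero fun j hj => if_pos hj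
    rw [a1, add_zero]
    exact Finset.sum_congr rfl fun j hj => if_neg (by simpa using hj)
  rw [e1, e2] at h3
  have h4 := chi_le_dim P a u
  rw [h1] at h4
  have h5 := chi_zz Z a u
  have h6 : (1 : ℤ) + ((∑ j ∈ Z, (u j + 1).choose 2 : ℕ) : ℤ) ≤
      (Module.finrank K ↥(VS (fun j => aff (P j)) (zz Z u) a) : ℤ) := by exact_mod_cast h3
  push_cast at h4
  linarith

/-- The sum over the complement. -/
theorem sum_split {s : ℕ} (T : Finset (Fin s)) (g : Fin s → ℤ) :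
    ∑ j, g j = ∑ j ∈ T, g j + ∑ j ∈ Tᶜ, g j := (Finset.sum_add_sum_compl T g).symm

/-- The self-intersection of a class far from the quadric. -/
theorem self_bd {s : ℕ} {T : Finset (Fin s)} {v : Fin s → ℕ} {d q : ℕ}
    (hr : ∑ j ∈ Tᶜ, v j ≤ q) (hd' : 9 * (q + 1) ≤ d)
    (hquad : ∑ j ∈ T, v j ^ 2 ≤ (d - 9 * (q + 1)) ^ 2) :
    63 * (q : ℤ) ^ 2 + 2 * q ≤ ip d v d v := by
  have h1 : ((∑ j ∈ T, v j ^ 2 : ℕ) : ℤ) ≤ ((d : ℤ) - 9 * (q + 1)) ^ 2 := by
    have h2 : ((d - 9 * (q + 1) : ℕ) : ℤ) = (d : ℤ) - 9 * (q + 1) := by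
      rw [Nat.cast_sub hd']
      push_cast
      ring
    rw [← h2]
    exact_mod_cast hquad
  have h3 : ∑ j ∈ Tᶜ, (v j : ℤ) * v j ≤ (q : ℤ) ^ 2 := by
    have h4 : ∑ j ∈ Tᶜ, (v j : ℤ) * v j ≤ ∑ j ∈ Tᶜ, (v j : ℤ) * (∑ j ∈ Tᶜ, v j : ℕ) := by
      refine Finset.sum_le_sum fun j hj => mul_le_mul_of_nonneg_left ?_ (Int.natCast_nonneg _)
      exact_mod_cast Finset.single_le_sum (f := v) (fun _ _ => Nat.zero_le _) hj
    rw [← Finset.sum_mul] at h4
    have h5 : (∑ j ∈ Tᶜ, (v j : ℤ)) = ((∑ j ∈ Tᶜ, v j : ℕ) : ℤ) := by push_cast; rfl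
    rw [h5] at h4
    have h6 : ((∑ j ∈ Tᶜ, v j : ℕ) : ℤ) ≤ q := by exact_mod_cast hr
    have h7 : (0 : ℤ) ≤ ((∑ j ∈ Tᶜ, v j : ℕ) : ℤ) := Int.natCast_nonneg _
    nlinarith
  have h8 : ∑ j ∈ T, (v j : ℤ) * v j = ((∑ j ∈ T, v j ^ 2 : ℕ) : ℤ) := by
    push_cast
    exact Finset.sum_congr rfl fun j _ => by ring
  unfold ip
  rw [sum_split T, h8]
  have hd : (9 * ((q : ℤ) + 1)) ≤ d := by exact_mod_cast hd'
  have hq0 : (0 : ℤ) ≤ q := Int.natCast_nonneg _
  have h9 : (9 * ((q : ℤ) + 1)) * (9 * (q + 1)) ≤ (9 * ((q : ℤ) + 1)) * (2 * d - 9 * (q + 1)) :=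
    mul_le_mul_of_nonneg_left (by linarith) (by linarith)
  nlinarith

/-- The class of a form. -/
noncomputable def cl {K : Type} [Field K] {s : ℕ} (P : Fin s → Fin 2 → K)
    (g : MvPolynomial (Fin 3) K) : Fin s → ℕ := fun j => oq (aff (P j)) g

/-- The generator of a rigid system, with nine arbitrary multiplicities at the points of `T`, simple
and double points `Z`, and small multiplicities at the other points. -/
structure Dat {K : Type} [Field K] [CharZero K] {r : ℕ} (P : Fin (r + 4) → Fin 2 → K)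
    (T Z : Finset (Fin (r + 4))) (q d : ℕ) (w : Fin (r + 4) → ℕ)
    (f : MvPolynomial (Fin 3) K) : Prop where
  gen : AlgebraicIndependent ℚ (fun ij : Fin (r + 4) × Fin 2 => P ij.1 ij.2)
  card : T.card = 9
  disj : ∀ j ∈ T, j ∉ Z
  simple : ∀ j ∈ Z, w j ≤ 2
  rest : ∑ j ∈ Tᶜ, zz Z w j ≤ q
  hd : 9 * (q + 1) ≤ d
  quad : ∑ j ∈ T, w j ^ 2 ≤ (d - 9 * (q + 1)) ^ 2
  rig : Module.finrank K ↥(VS (fun j => aff (P j)) w d) = 1
  mem : f ∈ VS (fun j => aff (P j)) w d
  sq : Squarefree f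

section

variable {K : Type} [Field K] [CharZero K] {r : ℕ} {P : Fin (r + 4) → Fin 2 → K}
  {T Z : Finset (Fin (r + 4))} {q d : ℕ} {w : Fin (r + 4) → ℕ} {f : MvPolynomial (Fin 3) K}

theorem Dat.split (D : Dat P T Z q d w f) {x h : MvPolynomial (Fin 3) K} (hx : f = x * h) :
    d = x.totalDegree + h.totalDegree ∧ w = fun j => cl P x j + cl P h j := by
  have hf0 : f ≠ 0 := D.sq.ne_zero
  have hfm := (mem_VS _ _ _ _).1 D.mem
  subst hx
  have hx0 := left_ne_zero_of_mul hf0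
  have hh0 := right_ne_zero_of_mul hf0
  have a1 := Pool.Agent.Chud.homog_of_dvd hfm.1 hf0 (dvd_mul_right x h)
  have a2 := Pool.Agent.Chud.homog_of_dvd hfm.1 hf0 (dvd_mul_left h x)
  refine ⟨((a1.mul a2).inj_right hfm.1 hf0).symm, ?_⟩
  funext j
  unfold cl
  rw [← oq_mul _ hx0 hh0]
  exact ((oq_ord hf0 _).1 (exact_ord D.gen D.rig D.mem hf0 j)).symm

theorem Dat.hom (D : Dat P T Z q d w f) {x : MvPolynomial (Fin 3) K} (hx : x ∣ f) :
    x.IsHomogeneous x.totalDegree :=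
  (comp1 D.gen D.rig D.mem D.sq.ne_zero hx).1

theorem Dat.le (D : Dat P T Z q d w f) {x : MvPolynomial (Fin 3) K} (hx : x ∣ f)
    (j : Fin (r + 4)) : cl P x j ≤ w j :=
  (comp1 D.gen D.rig D.mem D.sq.ne_zero hx).2.1 j

theorem Dat.rigx (D : Dat P T Z q d w f) {x : MvPolynomial (Fin 3) K} (hx : x ∣ f) :
    Module.finrank K ↥(VS (fun j => aff (P j)) (cl P x) x.totalDegree) = 1 :=
  (comp1 D.gen D.rig D.mem D.sq.ne_zero hx).2.2

theorem Dat.memx (D : Dat P T Z q d w f) {x : MvPolynomial (Fin 3) K} (hx : x ∣ f) :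
    x ∈ VS (fun j => aff (P j)) (cl P x) x.totalDegree := by
  have hx0 := ne_zero_of_dvd_ne_zero D.sq.ne_zero hx
  exact (mem_VS _ _ _ _).2 ⟨D.hom hx, fun j => (oq_van hx0 _).2 le_rfl⟩

theorem Dat.chix (D : Dat P T Z q d w f) {x : MvPolynomial (Fin 3) K} (hx : x ∣ f) :
    chi x.totalDegree (cl P x) ≤ 1 := by
  have h := chi_le_dim P x.totalDegree (cl P x)
  rw [D.rigx hx] at h
  exact_mod_cast h

theorem cl_mul {x y : MvPolynomial (Fin 3) K} (hx : x ≠ 0) (hy : y ≠ 0) :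
    cl P (x * y) = fun j => cl P x j + cl P y j := funext fun j => oq_mul _ hx hy

theorem Dat.cle (D : Dat P T Z q d w f) {x : MvPolynomial (Fin 3) K} (hx : x ∣ f)
    (j : Fin (r + 4)) : cl P x j ≤ x.totalDegree := by
  have hx0 := ne_zero_of_dvd_ne_zero D.sq.ne_zero hx
  exact van_le hx0 (D.hom hx) ((oq_van hx0 _).2 le_rfl)

/-- The inequality of Bezout. -/
theorem Dat.nonneg (D : Dat P T Z q d w f) {x y : MvPolynomial (Fin 3) K} (hxi : Irreducible x)
    (hxy : x * y ∣ f) : ∑ j, cl P x j * cl P y j ≤ x.totalDegree * y.totalDegree := by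
  have h0 := ne_zero_of_dvd_ne_zero D.sq.ne_zero hxy
  have hy0 := right_ne_zero_of_mul h0
  refine bez (SH.inj_of_alg D.gen) hxi (D.hom (dvd_of_mul_right_dvd hxy))
    (fun j => (oq_van hxi.ne_zero _).2 le_rfl) hy0 (D.hom (dvd_of_mul_left_dvd hxy))
    (fun j => (oq_van hy0 _).2 le_rfl) ?_
  rintro ⟨c, rfl⟩
  exact hxi.not_isUnit (D.sq x (dvd_of_mul_right_dvd (by rw [← mul_assoc] at hxy; exact hxy)))

theorem Dat.ip_nonneg (D : Dat P T Z q d w f) {x y : MvPolynomial (Fin 3) K}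
    (hxi : Irreducible x) (hxy : x * y ∣ f) :
    0 ≤ ip x.totalDegree (cl P x) y.totalDegree (cl P y) := by
  have h := D.nonneg hxi hxy
  have h2 : ((∑ j, cl P x j * cl P y j : ℕ) : ℤ) ≤ ((x.totalDegree * y.totalDegree : ℕ) : ℤ) := by
    exact_mod_cast h
  unfold ip
  push_cast at h2
  linarith

theorem ip_comm' {s : ℕ} (a b : ℕ) (u v : Fin s → ℕ) : ip a u b v = ip b v a u := by
  unfold ip
  rw [mul_comm]
  congr 1
  exact Finset.sum_congr rfl fun j _ => mul_comm _ _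

theorem Dat.zT (D : Dat P T Z q d w f) (u : Fin (r + 4) → ℕ) {j : Fin (r + 4)} (hj : j ∈ T) :
    zz Z u j = u j := by
  unfold zz
  rw [if_neg (D.disj j hj)]

/-- The self-intersection of the whole class. -/
theorem Dat.self (D : Dat P T Z q d w f) :
    63 * (q : ℤ) ^ 2 + 2 * q ≤ ip d (zz Z w) d (zz Z w) := by
  refine self_bd D.rest D.hd ?_
  rw [Finset.sum_congr rfl fun j hj => by rw [D.zT w hj]]
  exact D.quad

theorem Dat.le_rest (D : Dat P T Z q d w f) {x : MvPolynomial (Fin 3) K} (hx : x ∣ f) :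
    ∑ j ∈ Tᶜ, zz Z (cl P x) j ≤ q := by
  refine le_trans (Finset.sum_le_sum fun j _ => ?_) D.rest
  unfold zz
  split_ifs
  · exact le_rfl
  · exact D.le hx j

/-- The Euler characteristic of the class. -/
theorem Dat.chi_w (D : Dat P T Z q d w f) : chi d w = 1 := by
  refine chi_rig D.gen D.card D.simple ?_ D.rig D.mem D.sq
  have h1 := D.self
  have h2 : ((∑ j ∈ Tᶜ, zz Z w j : ℕ) : ℤ) ≤ q := by exact_mod_cast D.rest
  have h3 : (0 : ℤ) ≤ ((∑ j ∈ Tᶜ, zz Z w j : ℕ) : ℤ) := Int.natCast_nonneg _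
  have hq0 : (0 : ℤ) ≤ q := Int.natCast_nonneg _
  nlinarith

/-- The intersection number of two complementary parts. -/
theorem Dat.cost [IsAlgClosed K] (D : Dat P T Z q d w f) {x h : MvPolynomial (Fin 3) K}
    (hx : f = x * h) : ip x.totalDegree (cl P x) h.totalDegree (cl P h) ≤ q := by
  classical
  obtain ⟨e1, e2⟩ := D.split hx
  have hx1 : x ∣ f := ⟨h, hx⟩
  have hh1 : h ∣ f := ⟨x, by rw [hx]; ring⟩
  have hx0 := ne_zero_of_dvd_ne_zero D.sq.ne_zero hx1
  have hh0 := ne_zero_of_dvd_ne_zero D.sq.ne_zero hh1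
  have b1 := RD.rigid_red (S := T) D.card.le D.gen x.totalDegree (cl P x) x
    (D.sq.squarefree_of_dvd hx1) (D.hom hx1) (fun j => (oq_ord hx0 _).2 rfl) (D.rigx hx1)
  have b2 := RD.rigid_red (S := T) D.card.le D.gen h.totalDegree (cl P h) h
    (D.sq.squarefree_of_dvd hh1) (D.hom hh1) (fun j => (oq_ord hh0 _).2 rfl) (D.rigx hh1)
  have b3 := D.chi_w
  have b4 := RD.chi_add x.totalDegree h.totalDegree (cl P x) (cl P h)
  rw [← e1, ← e2, b3] at b4
  have b5 := RD.cost_add T (cl P x) (cl P h)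
  have b6 : ∑ j, (if j ∈ T then 0 else cl P x j + cl P h j - 2) ≤ q := by
    refine le_trans ?_ D.rest
    rw [← Finset.sum_add_sum_compl T]
    have e3 : ∑ j ∈ T, (if j ∈ T then 0 else cl P x j + cl P h j - 2) = 0 :=
      Finset.sum_eq_zero fun j hj => if_pos hj
    rw [e3, zero_add]
    refine Finset.sum_le_sum fun j hj => ?_
    rw [if_neg (Finset.mem_compl.1 hj)]
    have e4 : cl P x j + cl P h j = w j := (congrFun e2 j).symm
    rw [e4]
    unfold zz
    split_ifs with hjZ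
    · have := D.simple j hjZ
      omega
    · omega
  have b7 : ((∑ j, (if j ∈ T then 0 else cl P x j - 2) : ℕ) : ℤ) +
      ((∑ j, (if j ∈ T then 0 else cl P h j - 2) : ℕ) : ℤ) ≤ q := by
    exact_mod_cast b5.trans b6
  linarith

/-- The two types of components. -/
theorem Dat.type (D : Dat P T Z q d w f) {x : MvPolynomial (Fin 3) K} (hxi : Irreducible x)
    (hx : x ∣ f) :
    (ip x.totalDegree (cl P x) x.totalDegree (cl P x) = -1 ∧ kk x.totalDegree (cl P x) = 1 ∧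
      ∀ j, j ∉ T → cl P x j = 0) ∨ ∑ j ∈ T, cl P x j ^ 2 ≤ x.totalDegree ^ 2 := by
  classical
  obtain ⟨uT, huT⟩ : ∃ uT : Fin (r + 4) → ℕ, uT = fun j => if j ∈ T then cl P x j else 0 :=
    ⟨_, rfl⟩
  have hmem : x ∈ VS (fun j => aff (P j)) uT x.totalDegree := by
    refine vs_le (fun j => ?_) (D.memx hx)
    rw [huT]
    show (if j ∈ T then cl P x j else 0) ≤ _
    split_ifs <;> omega
  obtain ⟨d', w', k, C, e, u, N, h1, h2, h3, h4, -⟩ := zar9 D.gen (S := T) (w := uT)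
    (d := x.totalDegree) D.card.le (fun j hj => by rw [huT]; simp [hj])
    (pos_of_mem hmem hxi.ne_zero)
  by_cases hk : Nonempty (Fin k)
  · left
    obtain ⟨a⟩ := hk
    have h5 := h1.dvd (by exact_mod_cast h4.symm) hmem
    have h6 : C a ∣ x := by
      refine dvd_trans ?_ h5
      unfold Pr
      exact (dvd_pow_self (C a) (h1.pos a).ne').trans (Finset.dvd_prod_of_mem _ (Finset.mem_univ a))
    obtain ⟨c, hc⟩ := h6
    have hcu : IsUnit c := by
      rcases hxi.isUnit_or_isUnit hc with h | h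
      · exact absurd h (h1.exc a).irr.not_isUnit
      · exact h
    have hca := (h1.exc a).irr.ne_zero
    have hc0 := hcu.ne_zero
    have e1 : cl P x = u a := by
      funext j
      unfold cl
      rw [hc, oq_mul _ hca hc0, (oq_ord hca _).1 ((h1.exc a).ord j),
        o_unit (o := oq (aff (P j))) (F := 0) (fun a b _ ha hb => oq_mul _ ha hb) hcu, add_zero]
    have e2 : x.totalDegree = e a := by
      rw [hc, MvPolynomial.totalDegree_mul_of_isDomain hca hc0, (h1.exc a).hom.totalDegree hca,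
        (MvPolynomial.isUnit_iff_totalDegree_of_isReduced.1 hcu).2, add_zero]
    refine ⟨?_, ?_, fun j hj => ?_⟩
    · rw [e1, e2]
      exact self_iff.1 (h1.exc a).self
    · rw [e1, e2]
      exact can_iff.1 (h1.exc a).can
    · have h7 := h1.mul j
      have h8 : uT j = 0 := by rw [huT]; simp [hj]
      rw [h8] at h7
      have h9 : N a * u a j ≤ ∑ a, N a * u a j :=
        Finset.single_le_sum (f := fun a => N a * u a j) (fun _ _ => Nat.zero_le _)
          (Finset.mem_univ a)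
      have h10 : N a * u a j = 0 := by omega
      rw [e1]
      rcases Nat.mul_eq_zero.1 h10 with h | h
      · exact absurd h (h1.pos a).ne'
      · exact h
  · right
    have h5 := h1.self_eq
    have h6 : ∑ a, (N a : ℤ) ^ 2 = 0 := Finset.sum_eq_zero fun a _ => absurd ⟨a⟩ hk
    rw [h6, sub_zero] at h5
    rw [← h5] at h3
    unfold ip at h3
    rw [sum_split T] at h3
    have e1 : ∑ j ∈ Tᶜ, (uT j : ℤ) * uT j = 0 := Finset.sum_eq_zero fun j hj => by
      rw [huT]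
      simp [Finset.mem_compl.1 hj]
    have e2 : ∑ j ∈ T, (uT j : ℤ) * uT j = ((∑ j ∈ T, cl P x j ^ 2 : ℕ) : ℤ) := by
      push_cast
      refine Finset.sum_congr rfl fun j hj => ?_
      rw [huT]
      simp only [if_pos hj]
      ring
    rw [e1, e2, add_zero] at h3
    have h7 : ((∑ j ∈ T, cl P x j ^ 2 : ℕ) : ℤ) ≤ ((x.totalDegree ^ 2 : ℕ) : ℤ) := by
      push_cast at h3 ⊢
      linarith
    exact_mod_cast h7

/-- The class is positive on the components of the second type. -/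
theorem Dat.pos (D : Dat P T Z q d w f) {x : MvPolynomial (Fin 3) K} (hx : x ∣ f)
    (ht : ∑ j ∈ T, cl P x j ^ 2 ≤ x.totalDegree ^ 2) :
    (8 * (q : ℤ) + 9) * x.totalDegree ≤ ip d (zz Z w) x.totalDegree (zz Z (cl P x)) := by
  obtain ⟨e, he⟩ : ∃ e, e = x.totalDegree := ⟨_, rfl⟩
  rw [← he] at ht ⊢
  have hd := D.hd
  have h1 : ∑ j ∈ T, w j * cl P x j ≤ (d - 9 * (q + 1)) * e := by
    have h2 : (∑ j ∈ T, (w j : ℤ) * cl P x j) ^ 2 ≤
        (∑ j ∈ T, (w j : ℤ) ^ 2) * ∑ j ∈ T, (cl P x j : ℤ) ^ 2 :=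
      Finset.sum_mul_sq_le_sq_mul_sq _ _ _
    have h3 : (∑ j ∈ T, w j * cl P x j) ^ 2 ≤ (∑ j ∈ T, w j ^ 2) * ∑ j ∈ T, cl P x j ^ 2 := by
      exact_mod_cast h2
    have h4 : (∑ j ∈ T, w j * cl P x j) ^ 2 ≤ ((d - 9 * (q + 1)) * e) ^ 2 := by
      rw [mul_pow]
      exact h3.trans (Nat.mul_le_mul D.quad ht)
    exact (Nat.pow_le_pow_iff_left two_ne_zero).1 h4
  have h5 : ∑ j ∈ Tᶜ, zz Z w j * zz Z (cl P x) j ≤ q * e := by
    refine le_trans ?_ (Nat.mul_le_mul_right e D.rest)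
    rw [Finset.sum_mul]
    refine Finset.sum_le_sum fun j _ => Nat.mul_le_mul_left _ ?_
    rw [he]
    exact (zz_le Z _ j).trans (D.cle hx j)
  unfold ip
  rw [sum_split T]
  have e1 : ∑ j ∈ T, (zz Z w j : ℤ) * zz Z (cl P x) j = ((∑ j ∈ T, w j * cl P x j : ℕ) : ℤ) := by
    push_cast
    exact Finset.sum_congr rfl fun j hj => by rw [D.zT w hj, D.zT (cl P x) hj]
  have e2 : ∑ j ∈ Tᶜ, (zz Z w j : ℤ) * zz Z (cl P x) j =
      ((∑ j ∈ Tᶜ, zz Z w j * zz Z (cl P x) j : ℕ) : ℤ) := by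
    push_cast
    rfl
  rw [e1, e2]
  have h6 : ((∑ j ∈ T, w j * cl P x j : ℕ) : ℤ) ≤ ((d : ℤ) - 9 * (q + 1)) * e := by
    have h7 : ((d - 9 * (q + 1) : ℕ) : ℤ) = (d : ℤ) - 9 * (q + 1) := by
      rw [Nat.cast_sub hd]
      push_cast
      ring
    rw [← h7]
    exact_mod_cast h1
  have h8 : ((∑ j ∈ Tᶜ, zz Z w j * zz Z (cl P x) j : ℕ) : ℤ) ≤ (q : ℤ) * e := by exact_mod_cast h5
  nlinarith

/-- The number of the common points of two parts at the points of `Z`. -/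
def dl' {s : ℕ} (Z : Finset (Fin s)) (u v : Fin s → ℕ) : ℕ := ∑ j ∈ Z, u j * v j

theorem ip_zz {s : ℕ} (Z : Finset (Fin s)) (a b : ℕ) (u v : Fin s → ℕ) :
    ip a (zz Z u) b (zz Z v) = ip a u b v + dl' Z u v := by
  classical
  unfold ip dl'
  rw [sum_split Z (fun j => (zz Z u j : ℤ) * zz Z v j), sum_split Z (fun j => (u j : ℤ) * v j)]
  have e1 : ∑ j ∈ Z, (zz Z u j : ℤ) * zz Z v j = 0 := Finset.sum_eq_zero fun j hj => by
    unfold zz
    rw [if_pos hj]
    simp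
  have e2 : ∑ j ∈ Zᶜ, (zz Z u j : ℤ) * zz Z v j = ∑ j ∈ Zᶜ, (u j : ℤ) * v j := by
    refine Finset.sum_congr rfl fun j hj => ?_
    unfold zz
    rw [if_neg (Finset.mem_compl.1 hj), if_neg (Finset.mem_compl.1 hj)]
  rw [e1, e2]
  push_cast
  ring

theorem dl'_le {s : ℕ} {Z : Finset (Fin s)} {u v : Fin s → ℕ} (h : ∀ j ∈ Z, u j + v j ≤ 2) :
    dl' Z u v ≤ ∑ j ∈ Z, u j := by
  unfold dl'
  refine Finset.sum_le_sum fun j hj => ?_
  have h1 := h j hj
  rcases Nat.lt_or_ge (v j) 2 with h2 | h2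
  · calc u j * v j ≤ u j * 1 := Nat.mul_le_mul_left _ (by omega)
      _ = u j := mul_one _
  · have h3 : u j = 0 := by omega
    rw [h3]
    simp

theorem dl'_comm {s : ℕ} (Z : Finset (Fin s)) (u v : Fin s → ℕ) : dl' Z u v = dl' Z v u := by
  unfold dl'
  exact Finset.sum_congr rfl fun j _ => mul_comm _ _

theorem Dat.two_le (D : Dat P T Z q d w f) {x y : MvPolynomial (Fin 3) K} (hxy : x * y ∣ f)
    {j : Fin (r + 4)} (hj : j ∈ Z) : cl P x j + cl P y j ≤ 2 := by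
  have h0 := ne_zero_of_dvd_ne_zero D.sq.ne_zero hxy
  have h1 := D.le hxy j
  rw [cl_mul (left_ne_zero_of_mul h0) (right_ne_zero_of_mul h0)] at h1
  exact le_trans h1 (D.simple j hj)

theorem Dat.ipw (D : Dat P T Z q d w f) {x h : MvPolynomial (Fin 3) K} (hx : f = x * h) :
    ip d (zz Z w) x.totalDegree (zz Z (cl P x)) =
      ip x.totalDegree (zz Z (cl P x)) x.totalDegree (zz Z (cl P x)) +
      (ip x.totalDegree (cl P x) h.totalDegree (cl P h) + dl' Z (cl P x) (cl P h)) := by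
  obtain ⟨e1, e2⟩ := D.split hx
  have h4 : ip d (zz Z w) x.totalDegree (zz Z (cl P x)) =
      ip (x.totalDegree + h.totalDegree) (fun j => zz Z (cl P x) j + zz Z (cl P h) j)
        x.totalDegree (zz Z (cl P x)) := by
    rw [← zz_add, ← e2, ← e1]
  rw [h4, TT.ip_add, ip_comm' h.totalDegree, ip_zz Z x.totalDegree h.totalDegree]

/-- The self-intersection of a component of the second type. -/
theorem Dat.big [IsAlgClosed K] (D : Dat P T Z q d w f) {x : MvPolynomial (Fin 3) K}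
    (hx : x ∣ f) (ht : ∑ j ∈ T, cl P x j ^ 2 ≤ x.totalDegree ^ 2) :
    (8 * (q : ℤ) + 3) * x.totalDegree - 5 * q + 3 * ((∑ j ∈ Z, cl P x j : ℕ) : ℤ) ≤
      3 * ip x.totalDegree (zz Z (cl P x)) x.totalDegree (zz Z (cl P x)) := by
  classical
  have hx0 := ne_zero_of_dvd_ne_zero D.sq.ne_zero hx
  obtain ⟨h, hh⟩ := id hx
  have h1 := D.pos hx ht
  have h2 := D.ipw hh
  have h3 := D.cost hh
  have h4 : ((dl' Z (cl P x) (cl P h) : ℕ) : ℤ) ≤ ((∑ j ∈ Z, cl P x j : ℕ) : ℤ) := by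
    exact_mod_cast dl'_le fun j hj => D.two_le (x := x) (y := h) (by rw [hh]) hj
  -- the Euler characteristic
  have b1 := RD.rigid_red (S := T) D.card.le D.gen x.totalDegree (cl P x) x
    (D.sq.squarefree_of_dvd hx) (D.hom hx) (fun j => (oq_ord hx0 _).2 rfl) (D.rigx hx)
  have b2 : ∑ j, (if j ∈ T then 0 else cl P x j - 2) ≤ q := by
    refine le_trans ?_ (D.le_rest hx)
    rw [← Finset.sum_add_sum_compl T]
    have e3 : ∑ j ∈ T, (if j ∈ T then 0 else cl P x j - 2) = 0 :=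
      Finset.sum_eq_zero fun j hj => if_pos hj
    rw [e3, zero_add]
    refine Finset.sum_le_sum fun j hj => ?_
    rw [if_neg (Finset.mem_compl.1 hj)]
    unfold zz
    split_ifs with hjZ
    · have := D.simple j hjZ
      have := D.le hx j
      omega
    · omega
  have b3 : ((∑ j, (if j ∈ T then 0 else cl P x j - 2) : ℕ) : ℤ) ≤ q := by exact_mod_cast b2
  have b4 := chi_zz Z x.totalDegree (cl P x)
  have b5 := two_chi x.totalDegree (zz Z (cl P x))
  have b6 : ((∑ j ∈ Z, cl P x j : ℕ) : ℤ) ≤ ((∑ j ∈ Z, (cl P x j + 1).choose 2 : ℕ) : ℤ) := by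
    have : ∑ j ∈ Z, cl P x j ≤ ∑ j ∈ Z, (cl P x j + 1).choose 2 := by
      refine Finset.sum_le_sum fun j _ => ?_
      rw [Nat.choose_succ_succ' (cl P x j) 1, Nat.choose_one_right]
      exact Nat.le_add_right _ _
    exact_mod_cast this
  have b7 : kk x.totalDegree (zz Z (cl P x)) ≤ 3 * x.totalDegree := by
    unfold kk
    have : (0 : ℤ) ≤ ∑ j, (zz Z (cl P x) j : ℤ) := Finset.sum_nonneg fun j _ => Int.natCast_nonneg _
    linarith
  linarith

theorem aczel {a b A B S c : ℤ} (ha : 1 ≤ a) (hb : 1 ≤ b) (hc : 1 ≤ c) (hA : 0 ≤ A) (hB : 0 ≤ B)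
    (f1 : A ≤ a * a - c) (f2 : B ≤ b * b - c) (h2 : S ^ 2 ≤ A * B) : S ≤ a * b - c := by
  have f3 : A * B ≤ (a * a - c) * (b * b - c) := mul_le_mul f1 f2 hB (hA.trans f1)
  have f4 : (a * a - c) * (b * b - c) ≤ (a * b - c) ^ 2 := by
    have := mul_nonneg (by linarith : (0 : ℤ) ≤ c) (sq_nonneg (a - b))
    nlinarith
  have f5 : 0 ≤ a * b - c := by
    have g1 : c ≤ a * a := by linarith
    have g2 : c ≤ b * b := by linarith
    rcases le_total a b with h | h
    · have := mul_le_mul_of_nonneg_left h (by linarith : (0 : ℤ) ≤ a)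
      linarith
    · have := mul_le_mul_of_nonneg_right h (by linarith : (0 : ℤ) ≤ b)
      linarith
  by_contra hcon
  push Not at hcon
  have := pow_lt_pow_left₀ hcon f5 two_ne_zero
  linarith

/-- There is at most one component of the second type. -/
theorem Dat.two [IsAlgClosed K] (D : Dat P T Z q d w f) {x y : MvPolynomial (Fin 3) K}
    (hxi : Irreducible x) (hyi : Irreducible y) (hxy : x * y ∣ f)
    (hx : ∑ j ∈ T, cl P x j ^ 2 ≤ x.totalDegree ^ 2)
    (hy : ∑ j ∈ T, cl P y j ^ 2 ≤ y.totalDegree ^ 2) : False := by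
  have hx1 : x ∣ f := dvd_of_mul_right_dvd hxy
  have hy1 : y ∣ f := dvd_of_mul_left_dvd hxy
  have k1 : ((dl' Z (cl P x) (cl P y) : ℕ) : ℤ) ≤ ((∑ j ∈ Z, cl P x j : ℕ) : ℤ) := by
    exact_mod_cast dl'_le fun j hj => D.two_le hxy hj
  have k2 : ((dl' Z (cl P x) (cl P y) : ℕ) : ℤ) ≤ ((∑ j ∈ Z, cl P y j : ℕ) : ℤ) := by
    rw [dl'_comm]
    exact_mod_cast dl'_le fun j hj => D.two_le (by rwa [mul_comm]) hj
  obtain ⟨z, hz⟩ := hxy
  have hz' : f = x * (y * z) := by rw [hz]; ring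
  have hz0 : z ≠ 0 := right_ne_zero_of_mul (hz ▸ D.sq.ne_zero)
  have b1 := D.cost hz'
  have b2 := D.big hx1 hx
  have b3 := D.big hy1 hy
  have b4 := D.ip_nonneg hxi (y := z) ⟨y, by rw [hz]; ring⟩
  have b5 : ip x.totalDegree (cl P x) (y * z).totalDegree (cl P (y * z)) =
      ip x.totalDegree (cl P x) y.totalDegree (cl P y) +
      ip x.totalDegree (cl P x) z.totalDegree (cl P z) := by
    rw [cl_mul hyi.ne_zero hz0, MvPolynomial.totalDegree_mul_of_isDomain hyi.ne_zero hz0,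
      ip_comm', TT.ip_add, ip_comm' y.totalDegree, ip_comm' z.totalDegree]
  have b6 : ip x.totalDegree (zz Z (cl P x)) y.totalDegree (zz Z (cl P y)) ≤
      q + dl' Z (cl P x) (cl P y) := by
    rw [ip_zz]
    linarith
  have ex : 0 < x.totalDegree := Nat.pos_of_ne_zero
    (not_unit_deg (D.hom hx1) hxi.ne_zero hxi.not_isUnit)
  have ey : 0 < y.totalDegree := Nat.pos_of_ne_zero
    (not_unit_deg (D.hom hy1) hyi.ne_zero hyi.not_isUnit)
  have h2 : (∑ j, (zz Z (cl P x) j : ℤ) * zz Z (cl P y) j) ^ 2 ≤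
      (∑ j, (zz Z (cl P x) j : ℤ) ^ 2) * ∑ j, (zz Z (cl P y) j : ℤ) ^ 2 :=
    Finset.sum_mul_sq_le_sq_mul_sq _ _ _
  have e1 : ∑ j, (zz Z (cl P x) j : ℤ) * zz Z (cl P x) j = ∑ j, (zz Z (cl P x) j : ℤ) ^ 2 :=
    Finset.sum_congr rfl fun j _ => by ring
  have e2 : ∑ j, (zz Z (cl P y) j : ℤ) * zz Z (cl P y) j = ∑ j, (zz Z (cl P y) j : ℤ) ^ 2 :=
    Finset.sum_congr rfl fun j _ => by ring
  unfold ip at b2 b3 b6
  rw [e1] at b2
  rw [e2] at b3
  obtain ⟨A, hA⟩ : ∃ A, A = ∑ j, (zz Z (cl P x) j : ℤ) ^ 2 := ⟨_, rfl⟩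
  obtain ⟨B, hB⟩ : ∃ B, B = ∑ j, (zz Z (cl P y) j : ℤ) ^ 2 := ⟨_, rfl⟩
  obtain ⟨S, hS⟩ : ∃ S, S = ∑ j, (zz Z (cl P x) j : ℤ) * zz Z (cl P y) j := ⟨_, rfl⟩
  obtain ⟨a, ha⟩ : ∃ a : ℤ, a = x.totalDegree := ⟨_, rfl⟩
  obtain ⟨b, hb⟩ : ∃ b : ℤ, b = y.totalDegree := ⟨_, rfl⟩
  obtain ⟨δ, hδ⟩ : ∃ δ : ℤ, δ = dl' Z (cl P x) (cl P y) := ⟨_, rfl⟩
  have hA0 : 0 ≤ A := by rw [hA]; exact Finset.sum_nonneg fun j _ => sq_nonneg _
  have hB0 : 0 ≤ B := by rw [hB]; exact Finset.sum_nonneg fun j _ => sq_nonneg _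
  have ha1 : 1 ≤ a := by rw [ha]; exact_mod_cast ex
  have hb1 : 1 ≤ b := by rw [hb]; exact_mod_cast ey
  have hδ0 : 0 ≤ δ := by rw [hδ]; exact Int.natCast_nonneg _
  rw [← hA, ← ha] at b2
  rw [← hB, ← hb] at b3
  rw [← hS, ← ha, ← hb, ← hδ] at b6
  rw [← hS, ← hA, ← hB] at h2
  rw [← hδ] at k1 k2
  have hq0 : (0 : ℤ) ≤ q := Int.natCast_nonneg _
  obtain ⟨c, hc⟩ : ∃ c : ℤ, c = q + 1 + δ := ⟨_, rfl⟩
  have hc1 : 1 ≤ c := by omega
  have f1 : A ≤ a * a - c := by
    have h9 := mul_nonneg hq0 (by linarith : (0 : ℤ) ≤ a - 1)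
    linarith
  have f2 : B ≤ b * b - c := by
    have h9 := mul_nonneg hq0 (by linarith : (0 : ℤ) ≤ b - 1)
    linarith
  have f6 := aczel ha1 hb1 hc1 hA0 hB0 f1 f2 h2
  linarith

/-- The components of the first type are orthogonal to the rest. -/
theorem Dat.exc_orth [IsAlgClosed K] (D : Dat P T Z q d w f) {x h : MvPolynomial (Fin 3) K}
    (hxi : Irreducible x) (hx : f = x * h)
    (h1 : ip x.totalDegree (cl P x) x.totalDegree (cl P x) = -1)
    (h2 : kk x.totalDegree (cl P x) = 1) (h3 : ∀ j, j ∉ T → cl P x j = 0) :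
    ip x.totalDegree (cl P x) h.totalDegree (cl P h) = 0 := by
  obtain ⟨e1, e2⟩ := D.split hx
  have hh1 : h ∣ f := ⟨x, by rw [hx]; ring⟩
  have b1 := D.cost hx
  have b0 := D.ip_nonneg hxi (y := h) ⟨1, by rw [hx, mul_one]⟩
  obtain ⟨m, hm⟩ : ∃ m, m = ip x.totalDegree (cl P x) h.totalDegree (cl P h) := ⟨_, rfl⟩
  rw [← hm] at b1 b0 ⊢
  have hzx : zz Z (cl P x) = cl P x := by
    funext j
    unfold zz
    split_ifs with hj
    · rw [h3 j fun hT => D.disj j hT hj]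
    · rfl
  have hdl : dl' Z (cl P x) (cl P h) = 0 := by
    unfold dl'
    refine Finset.sum_eq_zero fun j hj => ?_
    rw [h3 j fun hT => D.disj j hT hj, zero_mul]
  have b2 := D.ipw hx
  rw [hzx, h1, ← hm, hdl, Nat.cast_zero, add_zero] at b2
  have hsum : ip d (zz Z w) d (zz Z w) = ip d (zz Z w) x.totalDegree (cl P x) +
      ip d (zz Z w) h.totalDegree (zz Z (cl P h)) := by
    have h4 : ip d (zz Z w) d (zz Z w) = ip (x.totalDegree + h.totalDegree)
        (fun j => zz Z (cl P x) j + zz Z (cl P h) j) d (zz Z w) := by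
      rw [← zz_add, ← e2, ← e1]
    rw [h4, TT.ip_add, ip_comm' x.totalDegree, ip_comm' h.totalDegree, hzx]
  have hsum2 : ip d (zz Z w) h.totalDegree (zz Z (cl P h)) =
      m + ip h.totalDegree (zz Z (cl P h)) h.totalDegree (zz Z (cl P h)) := by
    have h4 : ip d (zz Z w) h.totalDegree (zz Z (cl P h)) =
        ip (x.totalDegree + h.totalDegree) (fun j => zz Z (cl P x) j + zz Z (cl P h) j)
          h.totalDegree (zz Z (cl P h)) := by
      rw [← zz_add, ← e2, ← e1]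
    rw [h4, TT.ip_add, ip_zz Z x.totalDegree h.totalDegree, hdl, hm]
    push_cast
    ring
  have b3 := D.self
  have b4 : chi h.totalDegree (cl P h) = 1 := by
    refine chi_rig D.gen D.card (Z := Z) (fun j hj => (D.le hh1 j).trans (D.simple j hj)) ?_
      (D.rigx hh1) (D.memx hh1) (D.sq.squarefree_of_dvd hh1)
    have h5 : ((∑ j ∈ Tᶜ, zz Z (cl P h) j : ℕ) : ℤ) ≤ q := by exact_mod_cast D.le_rest hh1
    have h6 : (0 : ℤ) ≤ ((∑ j ∈ Tᶜ, zz Z (cl P h) j : ℕ) : ℤ) := Int.natCast_nonneg _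
    have h7 : ((∑ j ∈ Tᶜ, zz Z (cl P h) j : ℕ) : ℤ) ^ 2 ≤ (q : ℤ) ^ 2 := by nlinarith
    linarith
  have b5 : chi x.totalDegree (cl P x) = 1 := by
    have h5 := two_chi x.totalDegree (cl P x)
    rw [h1, h2] at h5
    linarith
  have b6 := RD.chi_add x.totalDegree h.totalDegree (cl P x) (cl P h)
  rw [← e1, ← e2, D.chi_w, b4, b5, ← hm] at b6
  linarith

/-- Two components are orthogonal. -/
theorem Dat.dis [IsAlgClosed K] (D : Dat P T Z q d w f) {x y : MvPolynomial (Fin 3) K}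
    (hxi : Irreducible x) (hyi : Irreducible y) (hxy : x * y ∣ f) :
    ip x.totalDegree (cl P x) y.totalDegree (cl P y) = 0 := by
  have key : ∀ x y : MvPolynomial (Fin 3) K, Irreducible x → Irreducible y → x * y ∣ f →
      ip x.totalDegree (cl P x) x.totalDegree (cl P x) = -1 → kk x.totalDegree (cl P x) = 1 →
      (∀ j, j ∉ T → cl P x j = 0) → ip x.totalDegree (cl P x) y.totalDegree (cl P y) = 0 := by
    intro x y hxi hyi hxy h1 h2 h3
    have c1 := D.ip_nonneg hxi hxy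
    obtain ⟨z, hz⟩ := hxy
    have hz' : f = x * (y * z) := by rw [hz]; ring
    have hz0 : z ≠ 0 := right_ne_zero_of_mul (hz ▸ D.sq.ne_zero)
    have c2 := D.ip_nonneg hxi (y := z) ⟨y, by rw [hz]; ring⟩
    have c3 := D.exc_orth hxi hz' h1 h2 h3
    rw [cl_mul hyi.ne_zero hz0, MvPolynomial.totalDegree_mul_of_isDomain hyi.ne_zero hz0,
      ip_comm', TT.ip_add, ip_comm' y.totalDegree, ip_comm' z.totalDegree] at c3
    linarith
  rcases D.type hxi (dvd_of_mul_right_dvd hxy) with ⟨h1, h2, h3⟩ | h1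
  · exact key x y hxi hyi hxy h1 h2 h3
  · rcases D.type hyi (dvd_of_mul_left_dvd hxy) with ⟨h2, h3, h4⟩ | h2
    · rw [ip_comm']
      exact key y x hyi hxi (by rwa [mul_comm]) h2 h3 h4
    · exact (D.two hxi hyi hxy h1 h2).elim

/-- A component is orthogonal to the rest. -/
theorem Dat.orth [IsAlgClosed K] (D : Dat P T Z q d w f) {x h : MvPolynomial (Fin 3) K}
    (hxi : Irreducible x) (hx : f = x * h) :
    ip x.totalDegree (cl P x) h.totalDegree (cl P h) = 0 := by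
  have hh0 : h ≠ 0 := right_ne_zero_of_mul (hx ▸ D.sq.ne_zero)
  have hdv : ∀ a, a ∣ h → x * a ∣ f := fun a ha => by
    rw [hx]
    exact mul_dvd_mul_left x ha
  obtain ⟨o, ho⟩ : ∃ o : MvPolynomial (Fin 3) K → ℕ,
    o = fun y => x.totalDegree * y.totalDegree - ∑ j, cl P x j * cl P y j := ⟨_, rfl⟩
  have hmul : ∀ a b, a * b ∣ h → a ≠ 0 → b ≠ 0 → o (a * b) = o a + o b := by
    intro a b hab ha hb
    have c1 := D.nonneg hxi (hdv a (dvd_of_mul_right_dvd hab))
    have c2 := D.nonneg hxi (hdv b (dvd_of_mul_left_dvd hab))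
    rw [ho]
    show x.totalDegree * (a * b).totalDegree - ∑ j, cl P x j * cl P (a * b) j =
      x.totalDegree * a.totalDegree - ∑ j, cl P x j * cl P a j +
        (x.totalDegree * b.totalDegree - ∑ j, cl P x j * cl P b j)
    rw [cl_mul ha hb, MvPolynomial.totalDegree_mul_of_isDomain ha hb]
    have c3 : ∑ j, cl P x j * (cl P a j + cl P b j) =
        ∑ j, cl P x j * cl P a j + ∑ j, cl P x j * cl P b j := by
      rw [← Finset.sum_add_distrib]
      exact Finset.sum_congr rfl fun j _ => by ring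
    rw [c3, mul_add]
    omega
  have c4 := D.nonneg hxi (hdv h dvd_rfl)
  have c5 : ¬ 1 ≤ o h := by
    intro hcon
    obtain ⟨y, hy1, hy2, hy3⟩ := an1 hmul h dvd_rfl hh0 hcon
    have c6 := D.dis hxi hy1 (hdv y hy2)
    rw [ho] at hy3
    unfold ip at c6
    have c7 : ((x.totalDegree * y.totalDegree : ℕ) : ℤ) =
        ((∑ j, cl P x j * cl P y j : ℕ) : ℤ) := by
      push_cast
      linarith
    have c8 : x.totalDegree * y.totalDegree = ∑ j, cl P x j * cl P y j := by exact_mod_cast c7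
    simp only at hy3
    omega
  rw [ho] at c5
  simp only at c5
  have c6 : x.totalDegree * h.totalDegree = ∑ j, cl P x j * cl P h j := by omega
  unfold ip
  have c7 : ((x.totalDegree * h.totalDegree : ℕ) : ℤ) =
      ((∑ j, cl P x j * cl P h j : ℕ) : ℤ) := by exact_mod_cast c6
  push_cast at c7
  linarith

/-- The numerical conditions. -/
theorem Dat.num [IsAlgClosed K] (D : Dat P T Z q d w f) : Num P w f := by
  classical
  refine ⟨fun x hxi hx => ?_, fun x y hxi hyi hxy => ?_, fun x hxi hx => ?_⟩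
  · obtain ⟨h, hh⟩ := hx
    obtain ⟨e1, e2⟩ := D.split hh
    have b1 := D.orth hxi hh
    have b2 := D.chix (x := x) ⟨h, hh⟩
    have b3 := D.chix (x := h) ⟨x, by rw [hh]; ring⟩
    have b4 := RD.chi_add x.totalDegree h.totalDegree (cl P x) (cl P h)
    rw [← e1, ← e2, D.chi_w, b1] at b4
    show chi x.totalDegree (cl P x) = 1
    linarith
  · have b1 := D.dis hxi hyi hxy
    unfold ip at b1
    have c7 : ((x.totalDegree * y.totalDegree : ℕ) : ℤ) =
        ((∑ j, cl P x j * cl P y j : ℕ) : ℤ) := by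
      push_cast
      linarith
    exact_mod_cast c7
  · rcases D.type hxi hx with ⟨h1, h2, h3⟩ | ht
    · have b1 : ∑ j ∈ Finset.univ.filter (fun i => 2 < w i), cl P x j ≤ ∑ j, cl P x j :=
        Finset.sum_le_sum_of_subset (Finset.filter_subset _ _)
      unfold kk at h2
      have b2 : ((∑ j, cl P x j : ℕ) : ℤ) = 3 * x.totalDegree - 1 := by
        push_cast
        linarith
      have b3 : ∑ j, cl P x j < 3 * x.totalDegree := by
        have : ((∑ j, cl P x j : ℕ) : ℤ) < ((3 * x.totalDegree : ℕ) : ℤ) := by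
          push_cast at b2 ⊢
          linarith
        exact_mod_cast this
      exact lt_of_le_of_lt b1 b3
    · have b1 := D.big hx ht
      have b2 : ∑ j ∈ Finset.univ.filter (fun i => 2 < w i), cl P x j ≤
          ∑ j ∈ T, cl P x j + ∑ j ∈ Tᶜ, zz Z (cl P x) j := by
        have c1 : ∑ j ∈ Finset.univ.filter (fun i => 2 < w i), cl P x j ≤
            ∑ j, zz Z (cl P x) j := by
          refine le_trans (Finset.sum_le_sum fun j hj => ?_)
            (Finset.sum_le_sum_of_subset (Finset.filter_subset _ _))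
          unfold zz
          split_ifs with hjZ
          · have := D.simple j hjZ
            have := (Finset.mem_filter.1 hj).2
            omega
          · exact le_rfl
        refine c1.trans ?_
        rw [← Finset.sum_add_sum_compl T]
        exact Nat.add_le_add_right (Finset.sum_le_sum fun j _ => zz_le _ _ _) _
      have b3 := D.le_rest hx
      have b4 : (∑ j ∈ T, (cl P x j : ℤ)) ^ 2 ≤ 9 * ∑ j ∈ T, (cl P x j : ℤ) ^ 2 := by
        have := sq_sum_le_card_mul_sum_sq (s := T) (f := fun j => (cl P x j : ℤ))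
        rw [D.card] at this
        exact_mod_cast this
      have b5 : ∑ j ∈ T, (cl P x j : ℤ) ^ 2 ≤ ∑ j, (zz Z (cl P x) j : ℤ) * zz Z (cl P x) j := by
        rw [sum_split T]
        have c1 : ∑ j ∈ T, (zz Z (cl P x) j : ℤ) * zz Z (cl P x) j =
            ∑ j ∈ T, (cl P x j : ℤ) ^ 2 :=
          Finset.sum_congr rfl fun j hj => by rw [D.zT _ hj]; ring
        rw [c1]
        have c2 : 0 ≤ ∑ j ∈ Tᶜ, (zz Z (cl P x) j : ℤ) * zz Z (cl P x) j :=
          Finset.sum_nonneg fun j _ => mul_nonneg (Int.natCast_nonneg _) (Int.natCast_nonneg _)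
        linarith
      have ex : 0 < x.totalDegree := Nat.pos_of_ne_zero
        (not_unit_deg (D.hom hx) hxi.ne_zero hxi.not_isUnit)
      unfold ip at b1
      obtain ⟨e, he⟩ : ∃ e : ℤ, e = x.totalDegree := ⟨_, rfl⟩
      obtain ⟨t, ht'⟩ : ∃ t : ℤ, t = ∑ j ∈ T, (cl P x j : ℤ) := ⟨_, rfl⟩
      rw [← he] at b1
      rw [← ht'] at b4
      have he1 : 1 ≤ e := by rw [he]; exact_mod_cast ex
      have ht0 : 0 ≤ t := by rw [ht']; exact Finset.sum_nonneg fun j _ => Int.natCast_nonneg _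
      have hq0 : (0 : ℤ) ≤ q := Int.natCast_nonneg _
      have hν : (0 : ℤ) ≤ ((∑ j ∈ Z, cl P x j : ℕ) : ℤ) := Int.natCast_nonneg _
      have f1 : t ^ 2 ≤ 9 * (e * e) - 3 * ((8 * (q : ℤ) + 3) * e - 5 * q) := by linarith
      have f2 : t + q < 3 * e := by
        by_contra hcon
        push Not at hcon
        have g0 : 0 ≤ 9 * (e * e) - 3 * ((8 * (q : ℤ) + 3) * e - 5 * q) := by
          have : 0 ≤ t ^ 2 := sq_nonneg t
          linarith
        have g1 : q ≤ 3 * e := by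
          by_contra hc
          push Not at hc
          have := mul_pos (by linarith : (0 : ℤ) < (q : ℤ) - 3 * e) (by linarith : (0 : ℤ) < 8 * e - 5)
          nlinarith
        have g2 : (3 * e - q) ^ 2 ≤ t ^ 2 := by
          exact pow_le_pow_left₀ (by linarith) (by linarith) 2
        have g3 := mul_nonneg hq0 (by linarith : (0 : ℤ) ≤ e - 1)
        nlinarith
      have f3 : ((∑ j ∈ T, cl P x j + ∑ j ∈ Tᶜ, zz Z (cl P x) j : ℕ) : ℤ) <
          ((3 * x.totalDegree : ℕ) : ℤ) := by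
        have : ((∑ j ∈ Tᶜ, zz Z (cl P x) j : ℕ) : ℤ) ≤ q := by exact_mod_cast b3
        push_cast at this ⊢
        rw [← ht', ← he]
        linarith
      exact lt_of_le_of_lt b2 (by exact_mod_cast f3)

end

end Pool.Agent.K3h62.NQ
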